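import Pool.Agent.H.MP_a7dd25_pr.A

set_option autoImplicit false
open MeasureTheory ProbabilityTheory Finset Filter Topology
open scoped ENNReal

namespace Pool.Agent.H.Kac

noncomputable def gs : Measure ℝ := gaussianReal 0 1

instance : IsProbabilityMeasure gs := by unfold gs; infer_instance

noncomputable def mu : Measure (ℕ → ℝ) := Measure.infinitePi fun _ => gs

instance : IsProbabilityMeasure mu := by unfold mu; infer_instance

lemma mu_indep : iIndepFun (fun (i : ℕ) (a : ℕ → ℝ) => a i) mu :=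
  iIndepFun_infinitePi (X := fun _ x => x) (by fun_prop)

lemma mu_eval (i : ℕ) : MeasurePreserving (fun a : ℕ → ℝ => a i) mu gs :=
  measurePreserving_eval_infinitePi (fun _ => gs) i

noncomputable def rho (c x : ℝ) : ℝ≥0∞ := ENNReal.ofReal (Real.exp (c * x - c ^ 2 / 2))

lemma rho_meas (c : ℝ) : Measurable (rho c) := by unfold rho; fun_prop

lemma gs_shift (c : ℝ) : gs.map (· + c) = gs.withDensity (rho c) := by
  unfold gs
  rw [gaussianReal_map_add_const, gaussianReal_of_var_ne_zero _ one_ne_zero,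
    gaussianReal_of_var_ne_zero _ one_ne_zero, ← withDensity_mul _ (measurable_gaussianPDF _ _) (rho_meas c)]
  congr 1
  ext x
  simp only [Pi.mul_apply, gaussianPDF, rho]
  rw [← ENNReal.ofReal_mul (gaussianPDFReal_nonneg _ _ _)]
  congr 1
  simp only [gaussianPDFReal]
  rw [mul_assoc _ (Real.exp _), ← Real.exp_add]
  congr 2
  simp only [NNReal.coe_one]
  ring

lemma lint_prod (S : Finset ℕ) (f : ℕ → ℝ → ℝ≥0∞) (hf : ∀ k, Measurable (f k)) :
    ∫⁻ a, ∏ k ∈ S, f k (a k) ∂mu = ∏ k ∈ S, ∫⁻ x, f k x ∂gs := by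
  rw [lintegral_prod_eq_prod_lintegral_of_indepFun S (fun (k : ℕ) (a : ℕ → ℝ) => f k (a k))
    (mu_indep.comp f hf) (fun k => (hf k).comp (measurable_pi_apply k))]
  exact prod_congr rfl fun k _ => (mu_eval k).lintegral_comp (hf k)

lemma cm (S : Finset ℕ) (γ : ℕ → ℝ) (hγ : ∀ k, k ∉ S → γ k = 0) :
    mu.map (fun a => a + γ) = mu.withDensity (fun a => ∏ k ∈ S, rho (γ k) (a k)) := by
  classical
  have h1 : mu.map (fun a => a + γ) = Measure.infinitePi (fun k => gs.map (· + γ k)) :=
    Measure.infinitePi_map_pi (fun _ => gs) (f := fun k x => x + γ k) (fun k => by fun_prop)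
  haveI : ∀ k, IsProbabilityMeasure (gs.map (· + γ k)) := fun k =>
    Measure.isProbabilityMeasure_map (by fun_prop)
  rw [h1]
  symm
  refine Measure.eq_infinitePi _ fun s t ht => ?_
  have hm : MeasurableSet (Set.pi (s : Set ℕ) t) := .pi s.countable_toSet fun i _ => ht i
  rw [withDensity_apply _ hm, ← lintegral_indicator hm]
  set t' : ℕ → Set ℝ := fun k => if k ∈ s then t k else Set.univ with ht'
  have hm' : ∀ k, MeasurableSet (t' k) := fun k => by
    simp only [ht']; split_ifs; exacts [ht k, .univ]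
  have e : ∀ a : ℕ → ℝ, (Set.pi (s : Set ℕ) t).indicator (fun a => ∏ k ∈ S, rho (γ k) (a k)) a
      = ∏ k ∈ s ∪ S, (t' k).indicator (rho (γ k)) (a k) := by
    intro a
    by_cases ha : a ∈ Set.pi (s : Set ℕ) t
    · rw [Set.indicator_of_mem ha, prod_subset (subset_union_right (s₁ := s))
        (fun k _ hk => by simp [hγ k hk, rho])]
      refine prod_congr rfl fun k _ => (Set.indicator_of_mem ?_ _).symm
      simp only [ht']; split_ifs with h
      exacts [ha k h, trivial]
    · rw [Set.indicator_of_notMem ha]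
      simp only [Set.mem_pi, mem_coe, not_forall] at ha
      obtain ⟨k, hk, hk2⟩ := ha
      have h3 : a k ∉ t' k := by simp only [ht', if_pos hk]; exact hk2
      exact (prod_eq_zero (mem_union_left _ hk) (Set.indicator_of_notMem h3 _)).symm
  simp only [e]
  rw [lint_prod _ (fun k => (t' k).indicator (rho (γ k))) (fun k => (rho_meas _).indicator (hm' k))]
  have e2 : ∀ k, ∫⁻ x, (t' k).indicator (rho (γ k)) x ∂gs = gs.map (· + γ k) (t' k) := fun k => by
    rw [lintegral_indicator (hm' k), gs_shift, withDensity_apply _ (hm' k)]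
  simp only [e2]
  rw [← prod_subset (subset_union_left (s₂ := S)) (fun k _ hk => by simp [ht', hk])]
  exact prod_congr rfl fun k hk => by simp [ht', hk]

lemma rho_sq (c : ℝ) : ∫⁻ x, rho c x ^ 2 ∂gs = ENNReal.ofReal (Real.exp (c ^ 2)) := by
  have e : ∀ x, rho c x ^ 2 = ENNReal.ofReal (Real.exp (c ^ 2)) * rho (2 * c) x := fun x => by
    simp only [rho]
    rw [← ENNReal.ofReal_pow (Real.exp_pos _).le, ← ENNReal.ofReal_mul (Real.exp_pos _).le,
      ← Real.exp_nat_mul, ← Real.exp_add]
    congr 2; push_cast; ring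
  simp only [e]
  rw [lintegral_const_mul _ (rho_meas _), ← setLIntegral_univ, ← withDensity_apply _ .univ, ← gs_shift,
    Measure.map_apply (by fun_prop) .univ]
  simp

lemma meas_shift (γ : ℕ → ℝ) : Measurable (fun a : ℕ → ℝ => a + γ) := by fun_prop

lemma cm_ineq (S : Finset ℕ) (γ : ℕ → ℝ) (hγ : ∀ k, k ∉ S → γ k = 0) (D : Set (ℕ → ℝ))
    (hD : MeasurableSet D) (R : ℝ) (hR : 0 < R) :
    mu.real ((fun a => a + γ) ⁻¹' D) ≤ R * mu.real D + Real.exp (∑ k ∈ S, γ k ^ 2) / R := by
  have hρ : Measurable fun a : ℕ → ℝ => ∏ k ∈ S, rho (γ k) (a k) :=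
    Finset.measurable_prod _ fun k _ => (rho_meas _).comp (measurable_pi_apply k)
  have h1 : mu ((fun a => a + γ) ⁻¹' D) ≤ ENNReal.ofReal R * mu D
      + ENNReal.ofReal (Real.exp (∑ k ∈ S, γ k ^ 2)) / ENNReal.ofReal R := by
    rw [← Measure.map_apply (meas_shift γ) hD, cm S γ hγ, withDensity_apply _ hD]
    have hR0 : ENNReal.ofReal R ≠ 0 := by simpa using hR
    calc ∫⁻ a in D, ∏ k ∈ S, rho (γ k) (a k) ∂mu
        ≤ ∫⁻ a in D, (ENNReal.ofReal R + (∏ k ∈ S, rho (γ k) (a k)) ^ 2 / ENNReal.ofReal R) ∂mu := by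
          refine lintegral_mono fun a => ?_
          generalize (∏ k ∈ S, rho (γ k) (a k)) = y
          rcases le_total y (ENNReal.ofReal R) with h | h
          · exact h.trans le_self_add
          · refine le_trans ?_ le_add_self
            rw [ENNReal.le_div_iff_mul_le (Or.inl hR0) (Or.inl ENNReal.ofReal_ne_top), sq]
            gcongr
      _ ≤ ENNReal.ofReal R * mu D + ∫⁻ a, (∏ k ∈ S, rho (γ k) (a k)) ^ 2 / ENNReal.ofReal R ∂mu := by
          rw [lintegral_add_left measurable_const, setLIntegral_const]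
          gcongr
          exact Measure.restrict_le_self
      _ = _ := by
          congr 1
          simp only [div_eq_mul_inv]
          rw [lintegral_mul_const _ (hρ.pow_const 2)]
          congr 1
          simp only [← prod_pow]
          rw [lint_prod S (fun k x => rho (γ k) x ^ 2) (fun k => (rho_meas _).pow_const 2), Real.exp_sum,
            ENNReal.ofReal_prod_of_nonneg (fun _ _ => (Real.exp_pos _).le)]
          exact prod_congr rfl fun k _ => rho_sq _
  rw [← ENNReal.ofReal_div_of_pos hR, ← ofReal_measureReal (μ := mu) (s := D),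
    ← ENNReal.ofReal_mul hR.le, ← ENNReal.ofReal_add (by positivity) (by positivity)] at h1
  exact ENNReal.toReal_le_of_le_ofReal (by positivity) h1

lemma null_of_shift (c : ℝ) (D : Set (ℕ → ℝ)) (hD : MeasurableSet D)
    (h : mu ((fun a => a + Pi.single 0 c) ⁻¹' D) = 0) : mu D = 0 := by
  rw [← Measure.map_apply (meas_shift _) hD, cm {0} _ (fun k hk => by
    rw [mem_singleton] at hk; simp [hk])] at h
  refine withDensity_absolutelyContinuous' ?_ ?_ h
  · exact (Finset.measurable_prod _ fun k _ => (rho_meas _).comp (measurable_pi_apply k)).aemeasurable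
  · exact .of_forall fun a => by simp [rho, Real.exp_pos]

lemma tail : gs.real {z | 6 ≤ |z|} ≤ 1 / 80000 := by
  have h1 := measure_ge_le_exp_mul_mgf (μ := gaussianReal 0 1) (X := id) (t := 6) 6 (by norm_num)
    (integrable_exp_mul_gaussianReal 6)
  have h2 := measure_le_le_exp_mul_mgf (μ := gaussianReal 0 1) (X := id) (t := -6) (-6) (by norm_num)
    (integrable_exp_mul_gaussianReal (-6))
  rw [mgf_id_gaussianReal, ← Real.exp_add] at h1 h2
  have h3 : Real.exp (-18) ≤ 1 / 160000 := by
    rw [Real.exp_neg, ← one_div]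
    refine one_div_le_one_div_of_le (by norm_num) ?_
    have : (2 : ℝ) ^ 18 ≤ Real.exp 1 ^ 18 :=
      pow_le_pow_left₀ (by norm_num) (by linarith [Real.add_one_le_exp 1]) _
    rw [← Real.exp_nat_mul] at this
    norm_num at this ⊢
    linarith
  have h4 : gs.real {z | 6 ≤ |z|} ≤ gs.real {z | 6 ≤ id z} + gs.real {z | id z ≤ -6} := by
    refine le_trans (measureReal_mono fun z hz => ?_) (measureReal_union_le _ _)
    simp only [Set.mem_setOf_eq, Set.mem_union, id] at hz ⊢
    rcases le_abs.1 hz with h | h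
    · exact Or.inl h
    · exact Or.inr (by linarith)
  unfold gs at *
  norm_num at h1 h2 h3 h4 ⊢
  linarith

noncomputable def nu : Measure (ℝ × (ℕ → ℝ)) := gs.prod mu

instance : IsProbabilityMeasure nu := by unfold nu; infer_instance

lemma mp_cons (N : ℕ) : MeasurePreserving
    (fun p : ℝ × (ℕ → ℝ) => (Fin.cons p.1 (fun k : Fin N => p.2 k) : Fin (N + 1) → ℝ)) nu
    (Measure.pi fun _ => gs) := by
  have h1 : MeasurePreserving (fun (a : ℕ → ℝ) (k : Fin N) => a k) mu (Measure.pi fun _ => gs) := by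
    refine ⟨by fun_prop, ?_⟩
    have := (iIndepFun_iff_map_fun_eq_pi_map (f := fun (k : Fin N) (a : ℕ → ℝ) => a k) (μ := mu)
      (fun k => (measurable_pi_apply _).aemeasurable)).1 (mu_indep.precomp Fin.val_injective)
    rw [this]
    congr 1
    ext1 k
    exact (mu_eval k).map_eq
  have h2 := (measurePreserving_piFinSuccAbove (fun _ : Fin (N + 1) => gs) 0).symm
  have h3 := h2.comp ((MeasurePreserving.id gs).prod h1)
  unfold nu
  convert h3 using 1
  ext p i
  refine Fin.cases ?_ (fun j => ?_) i <;> simp [MeasurableEquiv.piFinSuccAbove, Fin.consEquiv]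

noncomputable def lin (N : ℕ) (u : ℕ → ℝ) (u' : ℝ) (p : ℝ × (ℕ → ℝ)) : ℝ :=
  ∑ k ∈ range N, p.2 k * u k + p.1 * u'

lemma lin_meas (N : ℕ) (u : ℕ → ℝ) (u' : ℝ) : Measurable (lin N u u') := by unfold lin; fun_prop

lemma sc_lt (N : ℕ) (u v : ℕ → ℝ) (u' v' : ℝ) (hA : 0 < ∑ k ∈ range N, u k * u k + u' * u')
    (hB : 0 < ∑ k ∈ range N, v k * v k + v' * v') :
    nu.real {p | lin N u u' p * lin N v v' p < 0} = Real.arccos ((∑ k ∈ range N, u k * v k + u' * v') /
      √((∑ k ∈ range N, u k * u k + u' * u') * (∑ k ∈ range N, v k * v k + v' * v'))) / Real.pi := by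
  have es : ∀ (x y : ℕ → ℝ) (x' y' : ℝ), ∑ k : Fin (N + 1),
      (Fin.cons x' (fun k : Fin N => x k) : Fin (N + 1) → ℝ) k *
      (Fin.cons y' (fun k : Fin N => y k) : Fin (N + 1) → ℝ) k = ∑ k ∈ range N, x k * y k + x' * y' := by
    intro x y x' y'
    rw [Fin.sum_univ_succ, add_comm, ← Fin.sum_univ_eq_sum_range (fun k => x k * y k)]
    simp
  have h := MP_a7dd25_pr.sc (fun _ => 1) (Fin.cons u' (fun k : Fin N => u k) : Fin (N + 1) → ℝ)
    (Fin.cons v' (fun k : Fin N => v k)) (by simpa only [one_pow, one_mul, sq, es] using hA)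
    (by simpa only [one_pow, one_mul, sq, es] using hB)
  simp only [one_mul, Measure.map_id', MP_a7dd25_pr.ang, sq, es] at h
  have h2 := (mp_cons N).measure_preimage (s := {g : Fin (N + 1) → ℝ |
    (∑ k, g k * (Fin.cons u' (fun k : Fin N => u k) : Fin (N + 1) → ℝ) k) *
    (∑ k, g k * (Fin.cons v' (fun k : Fin N => v k) : Fin (N + 1) → ℝ) k) < 0})
    (measurableSet_lt (by fun_prop) measurable_const).nullMeasurableSet
  unfold gs at h2
  rw [h] at h2
  simp only [Set.preimage_setOf_eq, es] at h2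
  rw [Measure.real]
  erw [h2]
  rw [ENNReal.toReal_ofReal (div_nonneg (Real.arccos_nonneg _) Real.pi_pos.le)]

lemma sc_zero (N : ℕ) (u : ℕ → ℝ) (u' : ℝ) (hA : 0 < ∑ k ∈ range N, u k * u k + u' * u') :
    nu.real {p | lin N u u' p = 0} = 0 := by
  have h := sc_lt N u (fun k => -u k) u' (-u') hA (by simpa using hA)
  have e1 : ∑ k ∈ range N, u k * -u k + u' * -u' = -(∑ k ∈ range N, u k * u k + u' * u') := by
    simp only [mul_neg, sum_neg_distrib]; ring
  simp only [neg_mul_neg] at h
  rw [e1, Real.sqrt_mul_self hA.le, neg_div, div_self hA.ne', Real.arccos_neg_one,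
    div_self Real.pi_pos.ne'] at h
  have e2 : {p | lin N u u' p * lin N (fun k => -u k) (-u') p < 0} = {p | lin N u u' p = 0}ᶜ := by
    ext p
    have : lin N (fun k => -u k) (-u') p = -lin N u u' p := by
      simp only [lin, mul_neg, sum_neg_distrib]; ring
    simp [this]
  rw [e2, measureReal_compl (measurableSet_eq_fun (lin_meas _ _ _) measurable_const)] at h
  simp only [probReal_univ] at h
  linarith

lemma sc_le (N : ℕ) (u v : ℕ → ℝ) (u' v' τ : ℝ) (hτ : 0 ≤ τ) (hA : 0 < ∑ k ∈ range N, u k * u k + u' * u')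
    (hB : 0 < ∑ k ∈ range N, v k * v k + v' * v') (hC : 0 < ∑ k ∈ range N, u k * v k + u' * v')
    (h : (∑ k ∈ range N, u k * u k + u' * u') * (∑ k ∈ range N, v k * v k + v' * v')
      - (∑ k ∈ range N, u k * v k + u' * v') ^ 2 ≤ τ ^ 2 * (∑ k ∈ range N, u k * v k + u' * v') ^ 2) :
    nu.real {p | lin N u u' p * lin N v v' p ≤ 0} ≤ τ / Real.pi := by
  have h1 : nu.real {p | lin N u u' p * lin N v v' p ≤ 0} ≤ nu.real {p | lin N u u' p * lin N v v' p < 0}
      + (nu.real {p | lin N u u' p = 0} + nu.real {p | lin N v v' p = 0}) := by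
    refine le_trans (measureReal_mono fun p hp => ?_) ((measureReal_union_le _ _).trans
      (add_le_add le_rfl (measureReal_union_le _ _)))
    simp only [Set.mem_setOf_eq, Set.mem_union] at hp ⊢
    rcases hp.lt_or_eq with h | h
    · exact Or.inl h
    · exact Or.inr (mul_eq_zero.1 h)
  rw [sc_zero N u u' hA, sc_zero N v v' hB, sc_lt N u v u' v' hA hB, add_zero, add_zero] at h1
  refine h1.trans (div_le_div_of_nonneg_right ?_ Real.pi_pos.le)
  generalize ∑ k ∈ range N, u k * u k + u' * u' = A at *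
  generalize ∑ k ∈ range N, v k * v k + v' * v' = B at *
  generalize ∑ k ∈ range N, u k * v k + u' * v' = C at *
  have hs : 0 < √(A * B) := Real.sqrt_pos.2 (by positivity)
  have hx : 0 < C / √(A * B) := by positivity
  refine (Real.le_tan (Real.arccos_nonneg _) (Real.arccos_lt_pi_div_two.2 hx)).trans ?_
  rw [Real.tan_arccos, div_le_iff₀ hx, Real.sqrt_le_left (by positivity), mul_pow, div_pow,
    Real.sq_sqrt (by positivity)]
  have : 1 - C ^ 2 / (A * B) = (A * B - C ^ 2) / (A * B) := by field_simp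
  rw [this, ← mul_div_assoc]
  exact div_le_div_of_nonneg_right h (by positivity)

end Pool.Agent.H.Kac
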