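import Mathlib

set_option autoImplicit false
open Finset

namespace Pool.Agent.H.Kac

noncomputable def cc : ℕ → ℝ
  | 0 => 1
  | j + 1 => cc j * (2 * j + 1) / (2 * j + 2)

lemma cc_pos (j : ℕ) : 0 < cc j := by
  induction j with
  | zero => simp [cc]
  | succ j ih => simp only [cc]; positivity

lemma cc_sq (j : ℕ) : cc j ^ 2 ≤ 1 / (2 * j + 1) := by
  induction j with
  | zero => simp [cc]
  | succ j ih =>
    simp only [cc]
    have h0 : (0 : ℝ) ≤ j := by positivity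
    rw [le_div_iff₀ (by positivity)] at ih
    rw [div_pow, div_le_div_iff₀ (by positivity) (by positivity)]
    push_cast
    have : cc j ^ 2 * (2 * j + 1) * ((2 * j + 1) * (2 * (j + 1) + 1)) ≤ 1 * ((2 * j + 1) * (2 * (j + 1) + 1)) :=
      mul_le_mul_of_nonneg_right ih (by positivity)
    nlinarith

lemma cc_le (j : ℕ) : cc j ≤ 1 := by
  have h := cc_sq j
  have h0 : (0 : ℝ) ≤ j := by positivity
  have : (1 : ℝ) / (2 * j + 1) ≤ 1 := by rw [div_le_one (by positivity)]; linarith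
  nlinarith [cc_pos j]

lemma cc_sum (J : ℕ) : ∑ j ∈ range J, cc j ^ 2 ≤ 1 + Real.log J := by
  refine le_trans ?_ (harmonic_le_one_add_log J)
  simp only [harmonic, Rat.cast_sum, Rat.cast_inv, Rat.cast_natCast]
  refine sum_le_sum fun j _ => (cc_sq j).trans ?_
  rw [one_div]
  have h0 : (0 : ℝ) ≤ j := by positivity
  push_cast
  exact inv_anti₀ (by positivity) (by linarith)

noncomputable def SS (J : ℕ) (u : ℝ) : ℝ := ∑ j ∈ range J, cc j * u ^ j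

lemma SS_bd (J : ℕ) (u : ℝ) (h0 : 0 ≤ u) (h1 : u ≤ 1) : 0 ≤ SS J u ∧ SS J u ≤ J := by
  refine ⟨sum_nonneg fun j _ => by have := cc_pos j; positivity, ?_⟩
  calc SS J u ≤ ∑ _j ∈ range J, (1 : ℝ) := sum_le_sum fun j _ =>
        mul_le_one₀ (cc_le j) (by positivity) (pow_le_one₀ h0 h1)
    _ = J := by simp

lemma SS_deriv (J : ℕ) (u : ℝ) : ∃ d, HasDerivAt (SS (J + 1)) d u ∧
    2 * (1 - u) * d - SS (J + 1) u = -((2 * J + 1) * cc J * u ^ J) := by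
  induction J with
  | zero =>
    refine ⟨0, ?_, by simp [SS]⟩
    have : SS (0 + 1) = fun _ => 1 := by ext; simp [SS, cc]
    rw [this]; exact hasDerivAt_const _ _
  | succ J ih =>
    obtain ⟨d, h1, h2⟩ := ih
    have e : SS (J + 1 + 1) = fun u => SS (J + 1) u + cc (J + 1) * u ^ (J + 1) := by
      ext; simp only [SS, sum_range_succ]
    refine ⟨d + cc (J + 1) * (((J + 1 : ℕ) : ℝ) * u ^ J), ?_, ?_⟩
    · rw [e]
      exact h1.add ((hasDerivAt_pow (J + 1) u).const_mul _)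
    · have e2 : (2 * J + 1) * cc J = (2 * J + 2) * cc (J + 1) := by
        simp only [cc]; field_simp
      rw [e2] at h2
      rw [e]
      push_cast
      linear_combination h2

noncomputable def A2 (J : ℕ) (u : ℝ) : ℝ := SS J u ^ 2 * (1 - u)

lemma A2_deriv (J : ℕ) (u : ℝ) :
    HasDerivAt (A2 (J + 1)) (-(SS (J + 1) u * ((2 * J + 1) * cc J * u ^ J))) u := by
  obtain ⟨d, h1, h2⟩ := SS_deriv J u
  have := (h1.pow 2).mul ((hasDerivAt_id u).const_sub 1)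
  refine HasDerivAt.congr_deriv (f := A2 (J + 1)) this ?_
  rw [← neg_eq_iff_eq_neg] at h2
  rw [← h2]
  simp
  ring

lemma A2_anti (J : ℕ) : AntitoneOn (A2 (J + 1)) (Set.Icc 0 1) := by
  refine antitoneOn_of_deriv_nonpos (convex_Icc _ _)
    (fun u _ => (A2_deriv J u).continuousAt.continuousWithinAt)
    (fun u _ => (A2_deriv J u).differentiableAt.differentiableWithinAt) fun u hu => ?_
  rw [interior_Icc] at hu
  rw [(A2_deriv J u).deriv, neg_nonpos]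
  have := (SS_bd (J + 1) u hu.1.le hu.2.le).1
  have := cc_pos J
  have := hu.1
  positivity

lemma A2_zero (J : ℕ) : A2 (J + 1) 0 = 1 := by simp [A2, SS, sum_range_succ', cc]

lemma A2_low (J : ℕ) (u : ℝ) (h0 : 0 ≤ u) (h1 : u ≤ 1) : 1 - 2 * (J + 1) * u ^ (J + 1) ≤ A2 (J + 1) u := by
  have hd : ∀ u, HasDerivAt (fun u => A2 (J + 1) u + 2 * (J + 1) * u ^ (J + 1))
      (-(SS (J + 1) u * ((2 * J + 1) * cc J * u ^ J)) + 2 * (J + 1) * (((J + 1 : ℕ) : ℝ) * u ^ J)) u :=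
    fun u => (A2_deriv J u).add ((hasDerivAt_pow (J + 1) u).const_mul _)
  have hm : MonotoneOn (fun u => A2 (J + 1) u + 2 * (J + 1) * u ^ (J + 1)) (Set.Icc 0 1) := by
    refine monotoneOn_of_deriv_nonneg (convex_Icc _ _)
      (fun u _ => (hd u).continuousAt.continuousWithinAt)
      (fun u _ => (hd u).differentiableAt.differentiableWithinAt) fun u hu => ?_
    rw [interior_Icc] at hu
    rw [(hd u).deriv]
    obtain ⟨s0, s1⟩ := SS_bd (J + 1) u hu.1.le hu.2.le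
    have c0 := cc_pos J
    have c1 := cc_le J
    have u0 : 0 ≤ u ^ J := pow_nonneg hu.1.le J
    have j0 : (0 : ℝ) ≤ J := by positivity
    push_cast at s1 ⊢
    have h3 : (2 * J + 1) * cc J * u ^ J ≤ (2 * J + 2) * u ^ J := by
      refine mul_le_mul_of_nonneg_right ?_ u0
      nlinarith
    have h4 : SS (J + 1) u * ((2 * J + 1) * cc J * u ^ J) ≤ (J + 1) * ((2 * J + 2) * u ^ J) :=
      mul_le_mul s1 h3 (by positivity) (by positivity)
    nlinarith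
  have := hm (Set.left_mem_Icc.2 zero_le_one) ⟨h0, h1⟩ h0
  simp only [A2_zero, zero_pow (Nat.succ_ne_zero J), mul_zero, add_zero] at this
  linarith

def Pot (p : ℝ → ℝ → ℝ) (a b L : ℝ) : Prop :=
  ∃ h : ℝ, 0 < h ∧ ∃ Λ : ℝ → ℝ, Λ b - Λ a ≤ L ∧
    ∀ s t, a ≤ s → s ≤ t → t ≤ b → t - s ≤ h → p s t ≤ Λ t - Λ s

lemma Pot.glue {p : ℝ → ℝ → ℝ} (hp : ∀ s u t, p s t ≤ p s u + p u t) {a b c L L' : ℝ} (hab : a ≤ b)
    (hbc : b ≤ c) (h1 : Pot p a b L) (h2 : Pot p b c L') : Pot p a c (L + L') := by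
  obtain ⟨h, h0, Λ, hL, hΛ⟩ := h1
  obtain ⟨h', h0', Λ', hL', hΛ'⟩ := h2
  refine ⟨min h h', lt_min h0 h0', fun t => Λ (min t b) + Λ' (max t b), ?_, fun s t hs hst ht hh => ?_⟩
  · simp only [min_eq_right hbc, max_eq_left hbc, min_eq_left hab, max_eq_right hab]; linarith
  · have e1 := min_le_left h h'
    have e2 := min_le_right h h'
    rcases le_total t b with h3 | h3
    · simp only [min_eq_left h3, max_eq_right h3, min_eq_left (hst.trans h3), max_eq_right (hst.trans h3)]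
      have := hΛ s t hs hst h3 (by linarith); linarith
    · rcases le_total b s with h4 | h4
      · simp only [min_eq_right h3, max_eq_left h3, min_eq_right h4, max_eq_left h4]
        have := hΛ' s t h4 hst ht (by linarith); linarith
      · simp only [min_eq_right h3, max_eq_left h3, min_eq_left h4, max_eq_right h4]
        have := hΛ s b hs h4 le_rfl (by linarith)
        have := hΛ' b t le_rfl h3 ht (by linarith)
        have := hp s b t
        linarith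

lemma Pot.mono {p : ℝ → ℝ → ℝ} {a b L L' : ℝ} (h : Pot p a b L) (hL : L ≤ L') : Pot p a b L' := by
  obtain ⟨h, h0, Λ, hL1, hΛ⟩ := h
  exact ⟨h, h0, Λ, hL1.trans hL, hΛ⟩

def BV (f : ℝ → ℝ) (a b M L : ℝ) : Prop :=
  (∀ t, a ≤ t → t ≤ b → 0 ≤ f t ∧ f t ≤ M) ∧ ∃ V : ℝ → ℝ, V b - V a ≤ L ∧
    ∀ s t, a ≤ s → s ≤ t → t ≤ b → |f t - f s| ≤ V t - V s

lemma BV.of_mono {f : ℝ → ℝ} {a b M : ℝ} (hab : a ≤ b) (h : ∀ t, a ≤ t → t ≤ b → 0 ≤ f t ∧ f t ≤ M)
    (hm : ∀ s t, a ≤ s → s ≤ t → t ≤ b → f s ≤ f t) : BV f a b M M :=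
  ⟨h, f, by linarith [(h a le_rfl hab).1, (h b hab le_rfl).2], fun s t hs hst ht =>
    (abs_of_nonneg (sub_nonneg.2 (hm s t hs hst ht))).le⟩

lemma BV.of_anti {f : ℝ → ℝ} {a b M : ℝ} (hab : a ≤ b) (h : ∀ t, a ≤ t → t ≤ b → 0 ≤ f t ∧ f t ≤ M)
    (hm : ∀ s t, a ≤ s → s ≤ t → t ≤ b → f t ≤ f s) : BV f a b M M :=
  ⟨h, fun t => -f t, by linarith [(h a le_rfl hab).2, (h b hab le_rfl).1], fun s t hs hst ht => by
    rw [abs_of_nonpos (sub_nonpos.2 (hm s t hs hst ht))]; linarith⟩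

lemma BV.mul {f g : ℝ → ℝ} {a b M M' : ℝ} (hab : a ≤ b) (h : BV f a b M M) (h' : BV g a b M' M') :
    BV (fun t => f t * g t) a b (M * M') (2 * (M * M')) := by
  obtain ⟨h1, V, hV, h2⟩ := h
  obtain ⟨h1', V', hV', h2'⟩ := h'
  have hM : 0 ≤ M := (h1 a le_rfl hab).1.trans (h1 a le_rfl hab).2
  have hM' : 0 ≤ M' := (h1' a le_rfl hab).1.trans (h1' a le_rfl hab).2
  refine ⟨fun t ha hb => ⟨mul_nonneg (h1 t ha hb).1 (h1' t ha hb).1,
    mul_le_mul (h1 t ha hb).2 (h1' t ha hb).2 (h1' t ha hb).1 hM⟩,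
    fun t => M' * V t + M * V' t, by nlinarith, fun s t hs hst ht => ?_⟩
  have e : f t * g t - f s * g s = (f t - f s) * g t + f s * (g t - g s) := by ring
  rw [e]
  refine (abs_add_le _ _).trans ?_
  rw [abs_mul, abs_mul, abs_of_nonneg (h1' t (hs.trans hst) ht).1, abs_of_nonneg (h1 s hs (hst.trans ht)).1]
  have a1 := mul_le_mul (h2 s t hs hst ht) (h1' t (hs.trans hst) ht).2 (h1' t (hs.trans hst) ht).1
    ((abs_nonneg _).trans (h2 s t hs hst ht))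
  have a2 := mul_le_mul (h1 s hs (hst.trans ht)).2 (h2' s t hs hst ht) (abs_nonneg _) hM
  linarith

noncomputable def KK (n : ℕ) (s t : ℝ) : ℝ := ∑ k ∈ range (n + 1), s ^ k * t ^ k

lemma KK_ge (n : ℕ) (s t : ℝ) (hs : 0 ≤ s) (ht : 0 ≤ t) : 1 ≤ KK n s t := by
  rw [KK, sum_range_succ']
  have : 0 ≤ ∑ k ∈ range n, s ^ (k + 1) * t ^ (k + 1) := sum_nonneg fun _ _ => by positivity
  simp only [pow_zero, mul_one]; linarith

lemma KK_geom (n : ℕ) (s t : ℝ) : KK n s t * (1 - s * t) = 1 - s ^ (n + 1) * t ^ (n + 1) := by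
  simp only [KK, ← mul_pow]
  exact geom_sum_mul_neg _ _

lemma KK_tan (n : ℕ) (s t : ℝ) (hs : 0 ≤ s) (hst : s ≤ t) (ht : t < 1) :
    KK n s s * KK n t t - KK n s t ^ 2 ≤ ((t - s) / (1 - t ^ 2)) ^ 2 * KK n s t ^ 2 := by
  have h1 := KK_geom n s s
  have h2 := KK_geom n t t
  have h3 := KK_geom n s t
  have t0 : 0 < 1 - t ^ 2 := by nlinarith
  have s0 : 1 - t ^ 2 ≤ 1 - s ^ 2 := by nlinarith
  have hD : 0 < (1 - s ^ 2) * (1 - t ^ 2) := mul_pos (by linarith) t0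
  have h4 : KK n s s * KK n t t * ((1 - s ^ 2) * (1 - t ^ 2)) ≤ (KK n s t * (1 - s * t)) ^ 2 := by
    have e : KK n s s * KK n t t * ((1 - s ^ 2) * (1 - t ^ 2))
        = (KK n s s * (1 - s * s)) * (KK n t t * (1 - t * t)) := by ring
    rw [e, h1, h2, h3]
    nlinarith [sq_nonneg (s ^ (n + 1) - t ^ (n + 1))]
  refine le_of_mul_le_mul_right ?_ hD
  have h5 : (t - s) ^ 2 ≤ ((t - s) / (1 - t ^ 2)) ^ 2 * ((1 - s ^ 2) * (1 - t ^ 2)) := by
    rw [div_pow, div_mul_eq_mul_div, le_div_iff₀ (by positivity)]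
    refine mul_le_mul_of_nonneg_left ?_ (sq_nonneg _)
    nlinarith
  have h6 := mul_le_mul_of_nonneg_left h5 (sq_nonneg (KK n s t))
  nlinarith

lemma ang_alg (ρ α β τ φ : ℝ) (r0 : 0 < ρ) (r1 : ρ ≤ 1) (h : 1 - ρ ^ 2 ≤ τ ^ 2 * ρ ^ 2) (t0 : 0 ≤ τ)
    (t1 : τ ≤ 1) (a0 : 0 ≤ α) (b0 : 0 ≤ β) (f0 : 0 ≤ φ) (hf : 1 ≤ φ ^ 2 * (1 + α * β)) :
    (1 + α ^ 2) * (1 + β ^ 2) - (ρ + α * β) ^ 2 ≤ (τ * φ + 2 * |α - β|) ^ 2 * (ρ + α * β) ^ 2 := by
  have ab : 0 ≤ α * β := by positivity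
  have r2 : 1 / 2 ≤ ρ := by
    by_contra hn
    have : τ ^ 2 ≤ 1 := pow_le_one₀ t0 t1
    nlinarith
  have h1 : 2 * (1 - ρ) ≤ τ ^ 2 * ρ := by
    refine le_of_mul_le_mul_right ?_ r0
    nlinarith
  have h2 : (1 - ρ ^ 2) + 2 * (1 - ρ) * (α * β) ≤ τ ^ 2 * ρ * (ρ + α * β) := by nlinarith
  have h3 : ρ ≤ φ ^ 2 * (ρ + α * β) := by
    have : φ ^ 2 * (ρ * (1 + α * β)) ≤ φ ^ 2 * (ρ + α * β) :=
      mul_le_mul_of_nonneg_left (by nlinarith) (sq_nonneg _)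
    nlinarith
  have h4 : τ ^ 2 * ρ * (ρ + α * β) ≤ (τ * φ) ^ 2 * (ρ + α * β) ^ 2 := by
    have := mul_le_mul_of_nonneg_left h3 (show 0 ≤ τ ^ 2 * (ρ + α * β) by positivity)
    nlinarith
  have h5 : (α - β) ^ 2 ≤ (2 * |α - β|) ^ 2 * (ρ + α * β) ^ 2 := by
    rw [mul_pow, sq_abs]
    have : 1 ≤ 2 ^ 2 * (ρ + α * β) ^ 2 := by nlinarith
    nlinarith [sq_nonneg (α - β)]
  have h6 : 0 ≤ 2 * (τ * φ) * (2 * |α - β|) * (ρ + α * β) ^ 2 := by positivity
  nlinarith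

def HP (n : ℕ) (G : ℝ → ℝ) (p : ℝ → ℝ → ℝ) : Prop :=
  ∀ s t τ, 0 ≤ s → 0 ≤ t → 0 ≤ τ →
    (KK n s s + G s * G s) * (KK n t t + G t * G t) - (KK n s t + G s * G t) ^ 2
      ≤ τ ^ 2 * (KK n s t + G s * G t) ^ 2 → p s t ≤ τ / Real.pi

lemma ang_K (A B C g g' τ φ : ℝ) (hA : 1 ≤ A) (hB : 1 ≤ B) (hC : 1 ≤ C) (hcs : C ^ 2 ≤ A * B)
    (htan : A * B - C ^ 2 ≤ τ ^ 2 * C ^ 2) (τ0 : 0 ≤ τ) (τ1 : τ ≤ 1) (h1 : 0 ≤ g / √A) (h2 : 0 ≤ g' / √B)
    (f0 : 0 ≤ φ) (h4 : 1 ≤ φ ^ 2 * (1 + g / √A * (g' / √B))) :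
    (A + g * g) * (B + g' * g') - (C + g * g') ^ 2
      ≤ (τ * φ + 2 * |g / √A - g' / √B|) ^ 2 * (C + g * g') ^ 2 := by
  obtain ⟨x, rfl, x0⟩ : ∃ x, A = x ^ 2 ∧ 0 < x :=
    ⟨√A, (Real.sq_sqrt (by linarith)).symm, Real.sqrt_pos.2 (by linarith)⟩
  obtain ⟨y, rfl, y0⟩ : ∃ x, B = x ^ 2 ∧ 0 < x :=
    ⟨√B, (Real.sq_sqrt (by linarith)).symm, Real.sqrt_pos.2 (by linarith)⟩
  rw [Real.sqrt_sq x0.le, Real.sqrt_sq y0.le] at *
  obtain ⟨α, rfl⟩ : ∃ α, g = α * x := ⟨g / x, by field_simp⟩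
  obtain ⟨β, rfl⟩ : ∃ β, g' = β * y := ⟨g' / y, by field_simp⟩
  obtain ⟨ρ, rfl⟩ : ∃ ρ, C = ρ * (x * y) := ⟨C / (x * y), by field_simp⟩
  rw [mul_div_cancel_right₀ _ x0.ne', mul_div_cancel_right₀ _ y0.ne'] at *
  have xy : 0 < (x * y) ^ 2 := by positivity
  have r0 : 0 < ρ := (mul_pos_iff_of_pos_right (mul_pos x0 y0)).1 (by linarith)
  have r1 : ρ ≤ 1 := by
    have : ρ ^ 2 ≤ 1 := le_of_mul_le_mul_right (by linarith) xy
    nlinarith
  have h5 := ang_alg ρ α β τ φ r0 r1 (le_of_mul_le_mul_right (by linarith) xy) τ0 τ1 h1 h2 f0 h4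
  have := mul_le_mul_of_nonneg_right h5 xy.le
  linarith

lemma tau_le (η s t : ℝ) (η0 : 0 ≤ η) (s0 : 0 ≤ s) (hst : s ≤ t) (t1 : t < 1) (hh1 : t - s ≤ η * (1 - t)) :
    (t - s) / (1 - t ^ 2) ≤ (1 + η) / 2 * (Real.log (1 - s) - Real.log (1 - t)) + (t - s) / 2 := by
  have h7 : (t - s) / (1 - s) ≤ Real.log (1 - s) - Real.log (1 - t) := by
    have := Real.log_le_sub_one_of_pos (show 0 < (1 - t) / (1 - s) from div_pos (by linarith) (by linarith))
    rw [Real.log_div (by linarith) (by linarith)] at this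
    have e : (1 - t) / (1 - s) - 1 = -((t - s) / (1 - s)) := by
      have : 1 - s ≠ 0 := by linarith
      field_simp; ring
    linarith
  have h8 : (t - s) / (1 - t ^ 2) ≤ (1 + η) / 2 * ((t - s) / (1 - s)) + (t - s) / 2 := by
    have e : (t - s) / (1 - t ^ 2) = (t - s) / 2 * (1 / (1 - t) + 1 / (1 + t)) := by
      have : 1 - t ≠ 0 := by linarith
      have : 1 + t ≠ 0 := by linarith
      have h9 : 1 - t ^ 2 = (1 - t) * (1 + t) := by ring
      rw [h9]; field_simp; ring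
    have e1 : 1 / (1 - t) ≤ (1 + η) / (1 - s) := by
      rw [div_le_div_iff₀ (by linarith) (by linarith)]; linarith
    have e2 : 1 / (1 + t) ≤ 1 := by rw [div_le_one (by linarith)]; linarith
    have e3 := mul_le_mul_of_nonneg_left (add_le_add e1 e2) (show 0 ≤ (t - s) / 2 by linarith)
    rw [e]
    refine e3.trans (le_of_eq ?_)
    ring
  have h9 := mul_le_mul_of_nonneg_left h7 (show 0 ≤ (1 + η) / 2 by positivity)
  linarith

lemma region (n : ℕ) (G : ℝ → ℝ) (p : ℝ → ℝ → ℝ) (hp : HP n G p) (η a b φ M : ℝ) (m0 : 0 < η) (m1 : η ≤ 1)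
    (ha : 0 ≤ a) (hab : a ≤ b) (hb : b ≤ 1 - η) (hG : BV (fun t => G t / √(KK n t t)) a b M 16)
    (f0 : 0 ≤ φ) (f1 : φ ≤ 1)
    (hf : ∀ s t, a ≤ s → s ≤ b → a ≤ t → t ≤ b →
      1 ≤ φ ^ 2 * (1 + G s / √(KK n s s) * (G t / √(KK n t t)))) :
    Pot p a b ((φ * (1 + η) / 2 * (Real.log (1 - a) - Real.log (1 - b)) + 33) / Real.pi) := by
  obtain ⟨hG1, V, hV, hG2⟩ := hG
  refine ⟨η * η, by positivity,
    fun t => (-(φ * (1 + η) / 2 * Real.log (1 - t)) + t / 2 + 2 * V t) / Real.pi, ?_,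
    fun s t hs hst ht hh => ?_⟩
  · rw [← sub_div]
    exact div_le_div_of_nonneg_right (by linarith) Real.pi_pos.le
  have s0 : 0 ≤ s := ha.trans hs
  have t0 : 0 ≤ t := s0.trans hst
  have t1 : η ≤ 1 - t := by linarith
  have t2 : 1 - t ≤ 1 - t ^ 2 := by nlinarith
  have hh1 : t - s ≤ η * (1 - t) := hh.trans (mul_le_mul_of_nonneg_left t1 m0.le)
  have h8 := tau_le η s t m0.le s0 hst (by linarith) hh1
  have htan := KK_tan n s t s0 hst (by linarith)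
  have τ0 : 0 ≤ (t - s) / (1 - t ^ 2) := div_nonneg (by linarith) (by linarith)
  have τ1 : (t - s) / (1 - t ^ 2) ≤ 1 := by
    rw [div_le_one (by linarith)]
    have := mul_le_of_le_one_left (show 0 ≤ 1 - t by linarith) m1
    linarith
  generalize (t - s) / (1 - t ^ 2) = τ at *
  have hcs : KK n s t ^ 2 ≤ KK n s s * KK n t t := by
    simp only [KK, ← sq]; exact sum_mul_sq_le_sq_mul_sq _ _ _
  have h3 := hG2 s t hs hst ht
  have h6 := hp s t _ s0 t0 (by positivity) (ang_K _ _ _ _ _ τ φ (KK_ge n s s s0 s0) (KK_ge n t t t0 t0)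
    (KK_ge n s t s0 t0) hcs htan τ0 τ1 (hG1 s hs (hst.trans ht)).1 (hG1 t (hs.trans hst) ht).1 f0
    (hf s t hs (hst.trans ht) (hs.trans hst) ht))
  refine h6.trans ?_
  rw [← sub_div]
  refine div_le_div_of_nonneg_right ?_ Real.pi_pos.le
  rw [abs_sub_comm] at h3
  have h10 := mul_le_mul_of_nonneg_left h8 f0
  have h11 := mul_le_of_le_one_left (show 0 ≤ (t - s) / 2 by linarith) f1
  linarith

lemma middle (n J : ℕ) (hn : 0 < n) (c : ℕ → ℝ) (e : ℕ → ℕ) (c0 : ∀ j, 0 ≤ c j) (he : ∀ j, j < J → e j ≤ n)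
    (p : ℝ → ℝ → ℝ) (hp : HP n (fun t => ∑ j ∈ range J, c j * t ^ e j) p) :
    Pot p (1 - 1 / (2 * n)) 1 (1 / Real.pi) := by
  have n0 : (1 : ℝ) ≤ n := by exact_mod_cast hn
  refine ⟨1, one_pos, fun t => 2 * n * t / Real.pi, ?_, fun s t hs hst ht _ => ?_⟩
  · rw [← sub_div]; refine le_of_eq ?_; congr 1; field_simp; ring
  have h2 : 1 / (2 * (n : ℝ)) ≤ 1 / 2 := one_div_le_one_div_of_le (by norm_num) (by linarith)
  have s0 : 0 ≤ s := by linarith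
  set q := 2 * n * (t - s) with hq
  have q0 : 0 ≤ q := by have := sub_nonneg.2 hst; positivity
  have pw : ∀ k, k ≤ n → s ^ k ≤ t ^ k ∧ t ^ k - s ^ k ≤ q * s ^ k := by
    intro k hk
    refine ⟨pow_le_pow_left₀ s0 hst k, ?_⟩
    have hk' : (k : ℝ) ≤ n := by exact_mod_cast hk
    have h3 := one_add_mul_le_pow (a := s - 1) (by linarith) k
    have h4 : (k : ℝ) * (1 - s) ≤ n * (1 / (2 * n)) :=
      mul_le_mul hk' (by linarith) (by linarith) (by linarith)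
    have h5 : (n : ℝ) * (1 / (2 * n)) = 1 / 2 := by field_simp
    have h6 : 1 / 2 ≤ s ^ k := by
      rw [show 1 + (s - 1) = s by ring] at h3; linarith
    have h7 := abs_pow_sub_pow_le t s k
    have h8 : max |t| |s| ^ (k - 1) ≤ 1 := pow_le_one₀ (by positivity)
      (max_le (by rw [abs_le]; constructor <;> linarith) (by rw [abs_le]; constructor <;> linarith))
    rw [abs_of_nonneg (sub_nonneg.2 hst)] at h7
    have h9 : (t - s) * k * max |t| |s| ^ (k - 1) ≤ (t - s) * n * 1 :=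
      mul_le_mul (mul_le_mul_of_nonneg_left hk' (sub_nonneg.2 hst)) h8 (by positivity)
        (mul_nonneg (sub_nonneg.2 hst) (by linarith))
    have h10 := mul_le_mul_of_nonneg_left h6 q0
    have := le_abs_self (t ^ k - s ^ k)
    nlinarith
  have g0 : 0 ≤ ∑ j ∈ range J, c j * s ^ e j := sum_nonneg fun j _ => by have := c0 j; positivity
  have g1 : ∑ j ∈ range J, c j * s ^ e j ≤ ∑ j ∈ range J, c j * t ^ e j :=
    sum_le_sum fun j hj => mul_le_mul_of_nonneg_left (pw _ (he j (mem_range.1 hj))).1 (c0 j)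
  have g2 : ∑ j ∈ range J, c j * t ^ e j - ∑ j ∈ range J, c j * s ^ e j ≤ q * ∑ j ∈ range J, c j * s ^ e j := by
    rw [← sum_sub_distrib, mul_sum]
    refine sum_le_sum fun j hj => ?_
    have := mul_le_mul_of_nonneg_left (pw _ (he j (mem_range.1 hj))).2 (c0 j)
    linarith
  have k1 : KK n s s ≤ KK n s t := sum_le_sum fun k hk =>
    mul_le_mul_of_nonneg_left (pw k (Nat.lt_succ_iff.1 (mem_range.1 hk))).1 (by positivity)
  have k2 : KK n t t - 2 * KK n s t + KK n s s ≤ q ^ 2 * KK n s s := by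
    simp only [KK, mul_sum, ← sum_sub_distrib, ← sum_add_distrib]
    refine sum_le_sum fun k hk => ?_
    obtain ⟨a1, a2⟩ := pw k (Nat.lt_succ_iff.1 (mem_range.1 hk))
    have := pow_le_pow_left₀ (sub_nonneg.2 a1) a2 2
    nlinarith
  have k0 := KK_ge n s s s0 s0
  refine (hp s t q s0 (s0.trans hst) q0 ?_).trans (le_of_eq (by rw [hq]; ring))
  simp only
  generalize ∑ j ∈ range J, c j * s ^ e j = x at *
  generalize ∑ j ∈ range J, c j * t ^ e j = y at *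
  have g3 := pow_le_pow_left₀ (sub_nonneg.2 g1) g2 2
  have a1 : KK n s s + x * x ≤ KK n s t + x * y := by nlinarith
  have a2 : (KK n t t + y * y) - 2 * (KK n s t + x * y) + (KK n s s + x * x) ≤ q ^ 2 * (KK n s s + x * x) := by
    nlinarith
  have a0 : 0 ≤ KK n s s + x * x := by nlinarith
  generalize KK n s s + x * x = A at *
  generalize KK n t t + y * y = B at *
  generalize KK n s t + x * y = C at *
  have a3 := mul_le_mul_of_nonneg_left a2 a0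
  have a4 : q ^ 2 * A ^ 2 ≤ q ^ 2 * C ^ 2 := mul_le_mul_of_nonneg_left (pow_le_pow_left₀ a0 a1 2) (sq_nonneg _)
  nlinarith [sq_nonneg (A - C)]

end Pool.Agent.H.Kac
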