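import Pool.Agent.H.MP_9bdf03_pr.B

set_option autoImplicit false
open Finset

namespace Pool.Agent.H.Kac

lemma BV.weak {f g : ℝ → ℝ} {a b M L L' : ℝ} (h : BV f a b M L) (hL : L ≤ L')
    (e : ∀ t, a ≤ t → t ≤ b → g t = f t) : BV g a b M L' := by
  obtain ⟨h1, V, hV, h2⟩ := h
  refine ⟨fun t ha hb => e t ha hb ▸ h1 t ha hb, V, hV.trans hL, fun s t hs hst ht => ?_⟩
  rw [e t (hs.trans hst) ht, e s hs (hst.trans ht)]
  exact h2 s t hs hst ht

lemma KK_mono (n : ℕ) (s t : ℝ) (hs : 0 ≤ s) (hst : s ≤ t) : KK n s s ≤ KK n t t :=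
  sum_le_sum fun k _ => by gcongr; exact pow_nonneg (hs.trans hst) k

lemma invK_bv (n : ℕ) (a b M : ℝ) (ha : 0 ≤ a) (hab : a ≤ b) (hM : 0 < M) (h : M ^ 2 ≤ KK n a a) :
    BV (fun t => 1 / √(KK n t t)) a b (1 / M) (1 / M) := by
  refine BV.of_anti hab (fun t h1 _ => ⟨by positivity, one_div_le_one_div_of_le hM ?_⟩) fun s t hs hst _ => ?_
  · exact Real.le_sqrt_of_sq_le (h.trans (KK_mono n a t ha h1))
  · have := KK_ge n s s (ha.trans hs) (ha.trans hs)
    exact one_div_le_one_div_of_le (Real.sqrt_pos.2 (by linarith))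
      (Real.sqrt_le_sqrt (KK_mono n s t (ha.trans hs) hst))

lemma pow_le_exp (x : ℝ) (k : ℕ) (h1 : x ≤ 1) : (1 - x) ^ k ≤ Real.exp (-(k * x)) := by
  rw [← mul_neg, Real.exp_nat_mul]
  exact pow_le_pow_left₀ (by linarith) (by linarith [Real.add_one_le_exp (-x)]) k

lemma log_tot (n : ℕ) (hn : 0 < n) :
    (1 + 1 / (2 * (n : ℝ))) / 2 * -Real.log (1 / (2 * (n : ℝ))) ≤ Real.log n / 2 + 1 := by
  have n0 : (1 : ℝ) ≤ n := by exact_mod_cast hn
  rw [one_div, Real.log_inv, neg_neg]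
  have h1 := Real.log_le_sub_one_of_pos (show (0 : ℝ) < 2 * n by positivity)
  have h2 : (2 * (n : ℝ))⁻¹ * Real.log (2 * n) ≤ 1 := by
    rw [inv_mul_le_iff₀ (by positivity)]; linarith
  have h3 := Real.log_mul (show (2 : ℝ) ≠ 0 by norm_num) (show (n : ℝ) ≠ 0 by positivity)
  have h4 := Real.log_two_lt_d9
  nlinarith

lemma pot_in (n J : ℕ) (hJ : 0 < J) (hn : 10 * J ^ 3 ≤ n) (p : ℝ → ℝ → ℝ)
    (hs : ∀ s u t, p s t ≤ p s u + p u t)
    (hp : HP n (fun t => ∑ j ∈ range J, 4 * cc j * t ^ (n - 2 * j)) p) :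
    Pot p 0 1 ((Real.log n / 2 + 68) / Real.pi) := by
  have J1 : (1 : ℝ) ≤ J := by exact_mod_cast hJ
  have J3 : J ≤ J ^ 3 := Nat.le_self_pow (by norm_num) J
  have J4 : J ^ 2 ≤ J ^ 3 := Nat.pow_le_pow_right hJ (by norm_num)
  have n0 : 0 < n := by omega
  have nR : (10 : ℝ) * J ^ 3 ≤ n := by exact_mod_cast hn
  have J5 : (J : ℝ) ^ 2 ≤ J ^ 3 := by exact_mod_cast J4
  have J6 : (1 : ℝ) ≤ J ^ 2 := one_le_pow₀ J1
  set η : ℝ := 1 / (2 * n) with hη
  set x : ℝ := 1 / (8 * J ^ 2) with hx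
  have η0 : 0 < η := by positivity
  have hηx : η ≤ x := one_div_le_one_div_of_le (by positivity) (by linarith)
  have x1 : x ≤ 1 / 8 := one_div_le_one_div_of_le (by positivity) (by linarith)
  set G : ℝ → ℝ := fun t => ∑ j ∈ range J, 4 * cc j * t ^ (n - 2 * j) with hG
  have G0 : ∀ t, 0 ≤ t → 0 ≤ G t := fun t ht => sum_nonneg fun j _ => by have := cc_pos j; positivity
  have Gm : ∀ s t, 0 ≤ s → s ≤ t → G s ≤ G t := fun s t h0 h1 => sum_le_sum fun j _ => by
    have := cc_pos j; gcongr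
  have Gb : ∀ t, 0 ≤ t → t ≤ 1 → G t ≤ 4 * J * t ^ (n - 2 * J) := fun t h0 h1 => by
    calc G t ≤ ∑ _j ∈ range J, 4 * t ^ (n - 2 * J) := sum_le_sum fun j hj => by
          have := mem_range.1 hj
          have h2 : t ^ (n - 2 * j) ≤ t ^ (n - 2 * J) := pow_le_pow_of_le_one h0 h1 (by omega)
          have h3 := mul_le_mul (cc_le j) h2 (by positivity) zero_le_one
          linarith
      _ = _ := by simp; ring
  have b1 : BV G 0 (1 - x) 4 4 := by
    refine BV.of_mono (by linarith) (fun t h0 h1 => ⟨G0 t h0, (Gm t _ h0 h1).trans ?_⟩) fun s t h0 h1 _ => Gm s t h0 h1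
    refine (Gb _ (by linarith) (by linarith [η0.trans_le hηx])).trans ?_
    have h2 := pow_le_exp x (n - 2 * J) (by linarith)
    have h3 : (J : ℝ) ≤ ((n - 2 * J : ℕ) : ℝ) * x := by
      rw [hx, mul_one_div, le_div_iff₀ (by positivity), Nat.cast_sub (by omega)]
      have : (J : ℝ) ≤ J ^ 3 := by exact_mod_cast J3
      push_cast; nlinarith
    have h4 : Real.exp (-(((n - 2 * J : ℕ) : ℝ) * x)) ≤ (J : ℝ)⁻¹ := by
      rw [Real.exp_neg]
      exact inv_anti₀ (by linarith) (by linarith [Real.add_one_le_exp (((n - 2 * J : ℕ) : ℝ) * x)])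
    have h5 := mul_le_mul_of_nonneg_left (h2.trans h4) (show (0 : ℝ) ≤ 4 * J by positivity)
    rwa [mul_assoc 4 (J : ℝ) (J : ℝ)⁻¹, mul_inv_cancel₀ (by linarith), mul_one] at h5
  have b2 : BV G (1 - x) (1 - η) (4 * J) (4 * J) := by
    refine BV.of_mono (by linarith) (fun t h0 h1 => ⟨G0 t (by linarith), ?_⟩)
      fun s t h0 h1 _ => Gm s t (by linarith) h1
    exact (Gb t (by linarith) (by linarith)).trans
      (mul_le_of_le_one_right (by positivity) (pow_le_one₀ (by linarith) (by linarith)))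
  have k2 : (J : ℝ) ^ 2 ≤ KK n (1 - x) (1 - x) := by
    calc (J : ℝ) ^ 2 = ∑ _k ∈ range (2 * J ^ 2), (1 / 2 : ℝ) := by simp; ring
      _ ≤ ∑ k ∈ range (2 * J ^ 2), (1 - x) ^ k * (1 - x) ^ k := sum_le_sum fun k hk => by
          have h1 : (k : ℝ) ≤ 2 * J ^ 2 := by exact_mod_cast (mem_range.1 hk).le
          have h2 := one_add_mul_le_pow (a := -x) (by linarith) (k + k)
          have h3 : 2 * (J : ℝ) ^ 2 * x = 1 / 4 := by rw [hx]; field_simp; norm_num
          have h4 := mul_le_mul_of_nonneg_right h1 (η0.trans_le hηx).le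
          rw [← sub_eq_add_neg, pow_add] at h2
          push_cast at h2
          linarith
      _ ≤ _ := sum_le_sum_of_subset_of_nonneg (range_subset_range.2 (by omega))
          fun k _ _ => mul_self_nonneg _
  have hf : ∀ s t, 0 ≤ s → 0 ≤ t → 1 ≤ (1 : ℝ) ^ 2 * (1 + G s / √(KK n s s) * (G t / √(KK n t t))) := by
    intro s t h0 h1
    have := G0 s h0
    have := G0 t h1
    have : 0 ≤ G s / √(KK n s s) * (G t / √(KK n t t)) := by positivity
    linarith
  have r1 := region n G p hp η 0 (1 - x) 1 _ η0 (by linarith) le_rfl (by linarith) (by linarith)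
    ((b1.mul (by linarith) (invK_bv n 0 (1 - x) 1 le_rfl (by linarith) one_pos
      (by simpa using KK_ge n 0 0 le_rfl le_rfl))).weak (by norm_num) fun t _ _ => div_eq_mul_one_div _ _)
    zero_le_one le_rfl fun s t h1 _ h2 _ => hf s t h1 h2
  have r2 := region n G p hp η (1 - x) (1 - η) 1 _ η0 (by linarith) (by linarith) (by linarith) le_rfl
    ((b2.mul (by linarith) (invK_bv n (1 - x) (1 - η) J (by linarith) (by linarith) (by linarith) k2)).weak
      (by field_simp; norm_num) fun t _ _ => div_eq_mul_one_div _ _)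
    zero_le_one le_rfl fun s t h1 _ h2 _ => hf s t (by linarith) (by linarith)
  have r3 := middle n J n0 (fun j => 4 * cc j) (fun j => n - 2 * j) (fun j => by have := cc_pos j; positivity)
    (fun j _ => Nat.sub_le _ _) p hp
  refine (Pot.glue hs (by linarith) (by linarith) (Pot.glue hs (by linarith) (by linarith) r1 r2) r3).mono ?_
  rw [← add_div, ← add_div]
  refine div_le_div_of_nonneg_right ?_ Real.pi_pos.le
  have := log_tot n n0
  rw [← hη] at this
  simp only [sub_zero, Real.log_one, sub_sub_cancel]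
  linarith

lemma pot_out (n r : ℕ) (hr : 16 ≤ r) (hn : r ^ 2 * 2 ≤ n) (p : ℝ → ℝ → ℝ)
    (hs : ∀ s u t, p s t ≤ p s u + p u t)
    (hp : HP n (fun t => ∑ j ∈ range (r ^ 2), 4 * cc j * t ^ (2 * j)) p) :
    Pot p 0 1 ((Real.log n / 2 - Real.log r / 4 + 68) / Real.pi) := by
  have r1 : (16 : ℝ) ≤ r := by exact_mod_cast hr
  have r2 : r ≤ r ^ 2 := Nat.le_self_pow (by norm_num) r
  have n0 : 0 < n := by omega
  have nR : (r : ℝ) ≤ n := by exact_mod_cast (show r ≤ n by omega)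
  obtain ⟨J, hJ⟩ : ∃ J, r ^ 2 = J + 1 := ⟨r ^ 2 - 1, by omega⟩
  have hJR : (J : ℝ) + 1 = r ^ 2 := by exact_mod_cast hJ.symm
  set η : ℝ := 1 / (2 * n) with hη
  set x : ℝ := 1 / r with hx
  have η0 : 0 < η := by positivity
  have hηx : η ≤ x := one_div_le_one_div_of_le (by positivity) (by linarith)
  have x1 : x ≤ 1 / 16 := one_div_le_one_div_of_le (by positivity) (by linarith)
  set G : ℝ → ℝ := fun t => ∑ j ∈ range (r ^ 2), 4 * cc j * t ^ (2 * j) with hG
  have hB : ∀ t, 0 ≤ t → t ≤ 1 - η → 0 ≤ t ^ (n + 1) * t ^ (n + 1) ∧ t ^ (n + 1) * t ^ (n + 1) ≤ 1 / 2 := by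
    intro t h0 h1
    refine ⟨by positivity, ?_⟩
    rw [← pow_add]
    have h2 : t ^ (n + 1 + (n + 1)) ≤ t ^ (2 * n) := pow_le_pow_of_le_one h0 (by linarith) (by omega)
    have h3 : t ^ (2 * n) ≤ (1 - η) ^ (2 * n) := pow_le_pow_left₀ h0 h1 _
    have h4 := pow_le_exp η (2 * n) (by linarith)
    have h5 : ((2 * n : ℕ) : ℝ) * η = 1 := by rw [hη]; push_cast; field_simp
    rw [h5, Real.exp_neg] at h4
    have h6 : (Real.exp 1)⁻¹ ≤ 2⁻¹ := inv_anti₀ (by norm_num) (by linarith [Real.add_one_le_exp 1])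
    linarith
  have hk : ∀ t, 0 ≤ t → t ≤ 1 - η → G t / √(KK n t t)
      = 4 * √(A2 (J + 1) (t ^ 2)) * (1 / √(1 - t ^ (n + 1) * t ^ (n + 1))) := by
    intro t h0 h1
    have t1 : 0 < 1 - t ^ 2 := by nlinarith
    have e1 : G t = 4 * SS (J + 1) (t ^ 2) := by
      simp only [hG, SS, hJ, mul_sum, pow_mul, mul_assoc]
    have k0 := KK_ge n t t h0 h0
    rw [← KK_geom, e1, A2, Real.sqrt_mul (sq_nonneg _), Real.sqrt_sq (SS_bd _ _ (sq_nonneg t) (by linarith)).1,
      Real.sqrt_mul (by linarith), ← sq]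
    have := Real.sqrt_pos.2 t1
    have := Real.sqrt_pos.2 (show 0 < KK n t t by linarith)
    field_simp
  have hin : ∀ t, 0 ≤ t → t ≤ 1 - η → t ^ 2 ∈ Set.Icc (0 : ℝ) 1 := fun t h0 h1 =>
    ⟨sq_nonneg t, pow_le_one₀ h0 (by linarith)⟩
  have bv : ∀ a b, 0 ≤ a → a ≤ b → b ≤ 1 - η → BV (fun t => G t / √(KK n t t)) a b (4 * 2) 16 := by
    intro a b ha hab hb
    refine ((BV.of_anti (f := fun t => 4 * √(A2 (J + 1) (t ^ 2))) (M := 4) hab ?_ ?_).mul hab
      (BV.of_mono (f := fun t => 1 / √(1 - t ^ (n + 1) * t ^ (n + 1))) (M := 2) hab ?_ ?_)).weak (by norm_num)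
      fun t h1 h2 => hk t (ha.trans h1) (h2.trans hb)
    · intro t h1 h2
      have h3 := A2_anti J (Set.left_mem_Icc.2 zero_le_one) (hin t (ha.trans h1) (h2.trans hb)) (sq_nonneg t)
      rw [A2_zero] at h3
      have := Real.sqrt_le_one.2 h3
      exact ⟨by positivity, by linarith⟩
    · intro s t h1 h2 h3
      have := Real.sqrt_le_sqrt (A2_anti J (hin s (ha.trans h1) (by linarith)) (hin t (by linarith) (h3.trans hb))
        (pow_le_pow_left₀ (ha.trans h1) h2 2))
      linarith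
    · intro t h1 h2
      have := hB t (ha.trans h1) (h2.trans hb)
      refine ⟨by positivity, ?_⟩
      rw [div_le_iff₀ (Real.sqrt_pos.2 (by linarith))]
      have : (1 / 2 : ℝ) ≤ √(1 - t ^ (n + 1) * t ^ (n + 1)) := Real.le_sqrt_of_sq_le (by linarith)
      linarith
    · intro s t h1 h2 h3
      have := hB t (by linarith) (h3.trans hb)
      refine one_div_le_one_div_of_le (Real.sqrt_pos.2 (by linarith)) (Real.sqrt_le_sqrt ?_)
      have s0 := ha.trans h1
      have : s ^ (n + 1) * s ^ (n + 1) ≤ t ^ (n + 1) * t ^ (n + 1) := by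
        gcongr; exact pow_nonneg (s0.trans h2) _
      linarith
  have low : ∀ t, 0 ≤ t → t ≤ 1 - x → 2 ≤ G t / √(KK n t t) := by
    intro t h0 h1
    rw [hk t h0 (by linarith)]
    have h2 := A2_low J (t ^ 2) (sq_nonneg t) (hin t h0 (by linarith)).2
    have h3 : (t ^ 2) ^ (J + 1) ≤ (1 - x) ^ (J + 1) := pow_le_pow_left₀ (sq_nonneg t) (by nlinarith) _
    have h4 := pow_le_exp x (J + 1) (by linarith)
    have h5 : ((J + 1 : ℕ) : ℝ) * x = r := by push_cast; rw [hJR, hx]; field_simp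
    rw [h5, Real.exp_neg] at h4
    have h6 : (Real.exp r)⁻¹ ≤ ((r : ℝ) ^ 3 / 6)⁻¹ := by
      refine inv_anti₀ (by positivity) ?_
      simpa [Nat.factorial] using Real.pow_div_factorial_le_exp (r : ℝ) (by positivity) 3
    have h7 : 2 * ((J : ℝ) + 1) * ((r : ℝ) ^ 3 / 6)⁻¹ ≤ 3 / 4 := by
      rw [hJR, ← div_eq_mul_inv, div_le_iff₀ (by positivity)]
      nlinarith
    have h8 := mul_le_mul_of_nonneg_left (h3.trans (h4.trans h6)) (show 0 ≤ 2 * ((J : ℝ) + 1) by positivity)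
    have h9 : (1 / 2 : ℝ) ≤ √(A2 (J + 1) (t ^ 2)) := Real.le_sqrt_of_sq_le (by linarith)
    have := hB t h0 (by linarith)
    have h10 : 1 ≤ 1 / √(1 - t ^ (n + 1) * t ^ (n + 1)) := by
      rw [le_div_iff₀ (Real.sqrt_pos.2 (by linarith)), one_mul]
      exact Real.sqrt_le_one.2 (by linarith)
    nlinarith
  have q1 := region n G p hp η 0 (1 - x) (1 / 2) _ η0 (by linarith) le_rfl (by linarith) (by linarith)
    (bv _ _ le_rfl (by linarith) (by linarith)) (by norm_num) (by norm_num) fun s t h1 h2 h3 h4 => by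
      have := mul_le_mul (low s h1 h2) (low t h3 h4) (by norm_num) (by linarith [low s h1 h2])
      linarith
  have q2 := region n G p hp η (1 - x) (1 - η) 1 _ η0 (by linarith) (by linarith) (by linarith) le_rfl
    (bv _ _ (by linarith) (by linarith) le_rfl) zero_le_one le_rfl fun s t h1 h2 h3 h4 => by
      have hb := (bv (1 - x) (1 - η) (by linarith) (by linarith) le_rfl).1
      have := mul_nonneg (hb s h1 h2).1 (hb t h3 h4).1
      linarith
  have q3 := middle n (r ^ 2) n0 (fun j => 4 * cc j) (fun j => 2 * j) (fun j => by have := cc_pos j; positivity)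
    (fun j hj => by omega) p hp
  refine (Pot.glue hs (by linarith) (by linarith) (Pot.glue hs (by linarith) (by linarith) q1 q2) q3).mono ?_
  rw [← add_div, ← add_div]
  refine div_le_div_of_nonneg_right ?_ Real.pi_pos.le
  have := log_tot n n0
  rw [← hη] at this
  have h1 : Real.log x = -Real.log r := by rw [hx, one_div, Real.log_inv]
  have h2 : 0 ≤ η * Real.log r := mul_nonneg η0.le (Real.log_nonneg (by linarith))
  simp only [sub_zero, Real.log_one, sub_sub_cancel, h1]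
  linarith

end Pool.Agent.H.Kac
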