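import Pool.Agent.H.MP_9bdf03_pr.A
import Pool.Agent.H.MP_9bdf03_pr.C

set_option autoImplicit false
open MeasureTheory ProbabilityTheory Finset Filter Topology
open scoped ENNReal

namespace Pool.Agent.H.Kac

def sgn (e : Bool) : ℝ := if e then -1 else 1

lemma sgn_sq (e : Bool) (k : ℕ) : sgn e ^ k * sgn e ^ k = 1 := by
  rw [← mul_pow]; cases e <;> simp [sgn]

noncomputable def ww (n : ℕ) (q : Bool × Bool) (t : ℝ) (k : ℕ) : ℝ :=
  sgn q.1 ^ k * t ^ (if q.2 then n - k else k)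

noncomputable def ff (n : ℕ) (q : Bool × Bool) (a : ℕ → ℝ) (t : ℝ) : ℝ :=
  ∑ k ∈ range (n + 1), a k * ww n q t k

def SE (n : ℕ) (q : Bool × Bool) (s t : ℝ) : Set (ℕ → ℝ) := {a | ff n q a s * ff n q a t ≤ 0}

lemma SE_meas (n : ℕ) (q : Bool × Bool) (s t : ℝ) : MeasurableSet (SE n q s t) :=
  measurableSet_le (by unfold ff; fun_prop) measurable_const

noncomputable def SC (n K : ℕ) (a : ℕ → ℝ) : ℝ≥0∞ :=
  ∑ q : Bool × Bool, ∑ i ∈ range K, (SE n q ((i : ℝ) / K) (((i + 1 : ℕ) : ℝ) / K)).indicator 1 a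

noncomputable def XX (n : ℕ) (a : ℕ → ℝ) : ℝ≥0∞ := liminf (fun K => SC n K a) atTop

lemma SC_meas (n K : ℕ) : Measurable (SC n K) :=
  Finset.measurable_sum _ fun _ _ => Finset.measurable_sum _ fun _ _ =>
    measurable_one.indicator (SE_meas _ _ _ _)

lemma XX_meas (n : ℕ) : Measurable (XX n) := Measurable.liminf (SC_meas n)

lemma XX_congr (n : ℕ) (a b : ℕ → ℝ) (h : ∀ k, k ≤ n → a k = b k) : XX n a = XX n b := by
  have : ∀ q t, ff n q a t = ff n q b t := fun q t =>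
    sum_congr rfl fun k hk => by rw [h k (Nat.lt_succ_iff.1 (mem_range.1 hk))]
  simp only [XX, SC, Set.indicator, SE, Set.mem_setOf_eq, this, Pi.one_apply]

noncomputable def gam (n J k : ℕ) : ℝ := ∑ j ∈ range J, if k = n - 2 * j then 4 * cc j else 0

lemma gam_sum (n J : ℕ) (F : ℕ → ℝ) :
    ∑ k ∈ range (n + 1), gam n J k * F k = ∑ j ∈ range J, 4 * cc j * F (n - 2 * j) := by
  simp only [gam, sum_mul, ite_mul, zero_mul]
  rw [sum_comm]
  refine sum_congr rfl fun j _ => ?_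
  rw [sum_ite_eq', if_pos (mem_range.2 (by omega))]

lemma gam_zero (n J k : ℕ) (h : n < k ∨ k + 2 * J ≤ n) : gam n J k = 0 :=
  sum_eq_zero fun j hj => if_neg (by have := mem_range.1 hj; omega)

lemma gam_sq (n J : ℕ) (h : 2 * J ≤ n) : ∑ k ∈ range (n + 1), gam n J k ^ 2 ≤ 16 * (1 + Real.log J) := by
  simp only [sq]
  rw [gam_sum]
  refine le_trans (le_of_eq ?_) (mul_le_mul_of_nonneg_left (cc_sum J) (by norm_num))
  rw [mul_sum]
  refine sum_congr rfl fun j hj => ?_
  rw [gam, sum_eq_single j (fun i hi hij => if_neg (by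
    have := mem_range.1 hi; have := mem_range.1 hj; omega)) (fun h => absurd hj h), if_pos rfl]
  ring

def TT (γ : ℕ → ℝ) (p : ℝ × (ℕ → ℝ)) : ℕ → ℝ := p.2 + p.1 • γ

lemma TT_meas (γ : ℕ → ℝ) : Measurable (TT γ) := by unfold TT; fun_prop

noncomputable def pq (n J : ℕ) (q : Bool × Bool) (s t : ℝ) : ℝ := nu.real (TT (gam n J) ⁻¹' SE n q s t)

lemma pq_sub (n J : ℕ) (q : Bool × Bool) (s u t : ℝ) : pq n J q s t ≤ pq n J q s u + pq n J q u t := by
  refine le_trans (measureReal_mono fun p hp => ?_) (measureReal_union_le _ _)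
  simp only [Set.mem_preimage, SE, Set.mem_setOf_eq, Set.mem_union] at hp ⊢
  by_contra hn
  push Not at hn
  have := mul_pos hn.1 hn.2
  nlinarith [mul_self_nonneg (ff n q (TT (gam n J) p) u)]

lemma pq_HP (n J : ℕ) (h : 2 * J ≤ n) (q : Bool × Bool) :
    HP n (fun t => ∑ j ∈ range J, 4 * cc j * t ^ (if q.2 then 2 * j else n - 2 * j)) (pq n J q) := by
  intro s t τ s0 t0 τ0 hh
  set G : ℝ → ℝ := fun t => ∑ j ∈ range J, 4 * cc j * t ^ (if q.2 then 2 * j else n - 2 * j) with hG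
  have G0 : ∀ t, 0 ≤ t → 0 ≤ G t := fun t ht => sum_nonneg fun j _ => by have := cc_pos j; positivity
  have e1 : ∀ s t, ∑ k ∈ range (n + 1), ww n q s k * ww n q t k = KK n s t := by
    intro s t
    have : ∀ k, ww n q s k * ww n q t k = s ^ (if q.2 then n - k else k) * t ^ (if q.2 then n - k else k) := by
      intro k; simp only [ww]; linear_combination
        (s ^ (if q.2 then n - k else k) * t ^ (if q.2 then n - k else k)) * sgn_sq q.1 k
    simp only [this, KK]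
    cases q.2
    · simp
    · simpa using sum_flip (fun k => s ^ k * t ^ k)
  have e2 : ∀ t p, ff n q (TT (gam n J) p) t = lin (n + 1) (ww n q t) (sgn q.1 ^ n * G t) p := by
    intro t p
    simp only [ff, TT, lin, Pi.add_apply, Pi.smul_apply, smul_eq_mul, add_mul, sum_add_distrib, mul_assoc,
      ← mul_sum]
    congr 2
    rw [gam_sum, hG, mul_sum]
    refine sum_congr rfl fun j hj => ?_
    have := mem_range.1 hj
    have e3 : sgn q.1 ^ n = sgn q.1 ^ (n - 2 * j) := by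
      conv_lhs => rw [show n = n - 2 * j + (j + j) by omega, pow_add, pow_add, sgn_sq, mul_one]
    rw [ww, e3, show n - (n - 2 * j) = 2 * j by omega]
    ring
  have e3 : ∀ s t, sgn q.1 ^ n * G s * (sgn q.1 ^ n * G t) = G s * G t := fun s t => by
    linear_combination (G s * G t) * sgn_sq q.1 n
  have hpos : ∀ s t, 0 ≤ s → 0 ≤ t → 0 < KK n s t + G s * G t := fun s t h1 h2 => by
    have := KK_ge n s t h1 h2
    have := mul_nonneg (G0 s h1) (G0 t h2)
    linarith
  have := sc_le (n + 1) (ww n q s) (ww n q t) (sgn q.1 ^ n * G s) (sgn q.1 ^ n * G t) τ τ0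
    (by rw [e1, e3]; exact hpos _ _ s0 s0) (by rw [e1, e3]; exact hpos _ _ t0 t0)
    (by rw [e1, e3]; exact hpos _ _ s0 t0) (by simp only [e1, e3]; exact hh)
  simpa only [pq, SE, Set.preimage_setOf_eq, e2] using this

lemma kr (n J : ℕ) (L : Bool × Bool → ℝ) (h : ∀ q, Pot (pq n J q) 0 1 (L q)) :
    ∫⁻ p, XX n (TT (gam n J) p) ∂nu ≤ ENNReal.ofReal (∑ q, L q) := by
  refine (lintegral_liminf_le fun K => (SC_meas n K).comp (TT_meas _)).trans
    (liminf_le_of_frequently_le' (Eventually.frequently ?_))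
  have h1 : ∀ q, ∀ᶠ K : ℕ in atTop,
      ∑ i ∈ range K, pq n J q ((i : ℝ) / K) (((i + 1 : ℕ) : ℝ) / K) ≤ L q := by
    intro q
    obtain ⟨δ, δ0, Λ, hL, hΛ⟩ := h q
    filter_upwards [eventually_gt_atTop 0, (tendsto_one_div_atTop_nhds_zero_nat).eventually_le_const δ0]
      with K K0 hK
    have K1 : (0 : ℝ) < K := by exact_mod_cast K0
    refine le_trans (sum_le_sum fun i hi => hΛ _ _ (by positivity) (by gcongr; omega) ?_ ?_) ?_
    · rw [div_le_one K1]; exact_mod_cast mem_range.1 hi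
    · rw [← sub_div]; push_cast; simpa using hK
    · rw [sum_range_sub (fun i : ℕ => Λ ((i : ℝ) / K)), div_self K1.ne']
      simpa using hL
  filter_upwards [eventually_all.2 h1] with K hK
  simp only [Function.comp, SC]
  have hm : ∀ q s t, Measurable fun p => (SE n q s t).indicator (1 : (ℕ → ℝ) → ℝ≥0∞) (TT (gam n J) p) :=
    fun q s t => (measurable_one.indicator (SE_meas _ _ _ _)).comp (TT_meas _)
  rw [lintegral_finset_sum _ fun q _ => Finset.measurable_sum _ fun i _ => hm _ _ _]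
  refine le_trans ?_ (ENNReal.ofReal_le_ofReal (sum_le_sum fun q _ => hK q))
  have h0 : ∀ q s t, 0 ≤ pq n J q s t := fun _ _ _ => measureReal_nonneg
  rw [ENNReal.ofReal_sum_of_nonneg fun q _ => sum_nonneg fun i _ => h0 _ _ _]
  refine sum_le_sum fun q _ => le_of_eq ?_
  rw [lintegral_finset_sum _ fun i _ => hm _ _ _,
    ENNReal.ofReal_sum_of_nonneg fun i _ => h0 _ _ _]
  refine sum_congr rfl fun i _ => ?_
  rw [pq, ofReal_measureReal, ← lintegral_indicator_one (TT_meas _ (SE_meas _ _ _ _))]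
  rfl

theorem tilt (n r : ℕ) (hr : 16 ≤ r) (hn : 10 * (r ^ 2) ^ 3 ≤ n) :
    ∫⁻ p, XX n (TT (gam n (r ^ 2)) p) ∂nu
      ≤ ENNReal.ofReal ((2 * Real.log n - Real.log r / 2 + 272) / Real.pi) := by
  have h1 : r ^ 2 ≤ (r ^ 2) ^ 3 := Nat.le_self_pow (by norm_num) _
  have h2 : 0 < r ^ 2 := by positivity
  have := kr n (r ^ 2) (fun q => if q.2 then (Real.log n / 2 - Real.log r / 4 + 68) / Real.pi
    else (Real.log n / 2 + 68) / Real.pi) fun q => by
      have hp := pq_HP n (r ^ 2) (by omega) q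
      cases hq : q.2
      · simp only [hq, Bool.false_eq_true, if_false] at hp ⊢
        exact pot_in n _ h2 hn _ (pq_sub _ _ _) hp
      · simp only [hq, if_true] at hp ⊢
        exact pot_out n r hr (by omega) _ (pq_sub _ _ _) hp
  refine this.trans (le_of_eq ?_)
  congr 1
  simp [Fintype.sum_prod_type]
  ring

lemma cross (f : ℝ → ℝ) (z d : ℝ) (h0 : f z = 0) (hd : d ≠ 0) (h : HasDerivAt f d z) :
    ∃ δ, 0 < δ ∧ ∀ s t, s ≤ z → z ≤ t → t - s < δ → f s * f t ≤ 0 := by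
  have h1 := (hasDerivAt_iff_tendsto_slope.1 h).mul_const d
  have h2 := h1.eventually_const_lt (mul_self_pos.2 hd)
  rw [eventually_nhdsWithin_iff, Metric.eventually_nhds_iff] at h2
  obtain ⟨δ, δ0, h3⟩ := h2
  refine ⟨δ, δ0, fun s t hs ht hst => ?_⟩
  rcases hs.eq_or_lt with rfl | hs
  · simp [h0]
  rcases ht.eq_or_lt with rfl | ht
  · simp [h0]
  have a1 := h3 (y := s) (by rw [Real.dist_eq, abs_lt]; constructor <;> linarith) hs.ne
  have a2 := h3 (y := t) (by rw [Real.dist_eq, abs_lt]; constructor <;> linarith) ht.ne'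
  rw [slope_def_field, h0, sub_zero, div_mul_eq_mul_div] at a1 a2
  have b1 : f s * d < 0 := by
    by_contra hn
    exact absurd a1 (not_lt.2 (div_nonpos_of_nonneg_of_nonpos (not_lt.1 hn) (by linarith)))
  have b2 : 0 < f t * d := by
    by_contra hn
    exact absurd a2 (not_lt.2 (div_nonpos_of_nonpos_of_nonneg (not_lt.1 hn) (by linarith)))
  by_contra hn
  have := mul_pos (not_le.1 hn) (mul_self_pos.2 hd)
  nlinarith [mul_neg_of_neg_of_pos b1 b2]

open Classical in
lemma count (f : ℝ → ℝ) (Z : Finset ℝ)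
    (hZ : ∀ z ∈ Z, 0 ≤ z ∧ z < 1 ∧ f z = 0 ∧ ∃ d, d ≠ 0 ∧ HasDerivAt f d z) :
    ∀ᶠ K : ℕ in atTop, #Z ≤ #((range K).filter fun i : ℕ => f ((i : ℝ) / K) * f (((i + 1 : ℕ) : ℝ) / K) ≤ 0) := by
  have h1 : ∀ z ∈ Z, ∀ᶠ K : ℕ in atTop, ∀ s t, s ≤ z → z ≤ t → t - s ≤ 1 / K → f s * f t ≤ 0 := by
    intro z hz
    obtain ⟨-, -, h0, d, hd, h⟩ := hZ z hz
    obtain ⟨δ, δ0, h2⟩ := cross f z d h0 hd h
    filter_upwards [(tendsto_one_div_atTop_nhds_zero_nat).eventually_lt_const δ0] with K hK s t a b c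
    exact h2 s t a b (c.trans_lt hK)
  have h2 : ∀ z ∈ Z, ∀ᶠ K : ℕ in atTop, ∀ y ∈ Z, z < y → 1 / (K : ℝ) < y - z := by
    intro z _
    refine (eventually_all_finset Z).2 fun y _ => ?_
    by_cases h : z < y
    · filter_upwards [(tendsto_one_div_atTop_nhds_zero_nat).eventually_lt_const (sub_pos.2 h)] with K hK _
      exact hK
    · exact .of_forall fun K h' => absurd h' h
  filter_upwards [(eventually_all_finset Z).2 h1, (eventually_all_finset Z).2 h2, eventually_gt_atTop 0]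
    with K a1 a2 K0
  have K1 : (0 : ℝ) < K := by exact_mod_cast K0
  have lo : ∀ z ∈ Z, (⌊z * K⌋₊ : ℝ) / K ≤ z := fun z hz => by
    rw [div_le_iff₀ K1]; exact Nat.floor_le (mul_nonneg (hZ z hz).1 K1.le)
  have hi : ∀ z : ℝ, z < ((⌊z * K⌋₊ + 1 : ℕ) : ℝ) / K := fun z => by
    rw [lt_div_iff₀ K1]; push_cast; exact Nat.lt_floor_add_one _
  have df : ∀ i : ℕ, ((i + 1 : ℕ) : ℝ) / K - (i : ℝ) / K = 1 / K := fun i => by push_cast; ring
  refine card_le_card_of_injOn (fun z => ⌊z * K⌋₊) (fun z hz => ?_) fun z hz y hy h => ?_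
  · simp only [coe_filter, mem_range, Set.mem_setOf_eq]
    refine ⟨(Nat.floor_lt (mul_nonneg (hZ z hz).1 K1.le)).2 ?_, a1 z hz _ _ (lo z hz) (hi z).le (df _).le⟩
    exact mul_lt_of_lt_one_left K1 (hZ z hz).2.1
  · simp only at h
    have c1 := lo z hz
    have c2 := lo y hy
    have c3 := hi z
    have c4 := hi y
    have c5 := df ⌊y * K⌋₊
    rw [h] at c1 c3
    rcases lt_trichotomy z y with h' | h' | h'
    · have := a2 z hz y hy h'; linarith
    · exact h'
    · have := a2 y hy z hz h'; linarith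

end Pool.Agent.H.Kac
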