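import Pool.Agent.H.MP_9bdf03_pr.D

set_option autoImplicit false
open MeasureTheory ProbabilityTheory Finset Filter Topology Polynomial
open scoped ENNReal

namespace Pool.Agent.H.Kac

noncomputable def PP (n : ℕ) (a : ℕ → ℝ) : ℝ[X] := ∑ i ∈ range (n + 1), C (a i) * X ^ i

lemma PP_eval (n : ℕ) (a : ℕ → ℝ) (x : ℝ) : (PP n a).eval x = ∑ k ∈ range (n + 1), a k * x ^ k := by
  simp [PP, eval_finset_sum]

def Bad (n : ℕ) : Set (ℕ → ℝ) := {a | ∃ x, (PP n a).eval x = 0 ∧ (derivative (PP n a)).eval x = 0}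

lemma sgn_mul (e : Bool) : sgn e * sgn e = 1 := by simpa using sgn_sq e 1

open Classical in
lemma roots_le (n : ℕ) (a : ℕ → ℝ) (ha : a ∉ Bad n) : ((PP n a).roots.card : ℝ≥0∞) ≤ XX n a + 2 := by
  simp only [Bad, Set.mem_setOf_eq, not_exists, not_and] at ha
  have hnd : (PP n a).roots.Nodup := by
    rw [Multiset.nodup_iff_count_le_one]
    intro x
    rw [count_roots]
    by_contra h
    by_cases h0 : PP n a = 0
    · simp [h0] at h
    · have := (one_lt_rootMultiplicity_iff_isRoot h0).1 (not_le.1 h)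
      exact ha x this.1 this.2
  set R := (PP n a).roots.toFinset with hR
  set φ : Bool × Bool → ℝ → ℝ := fun q x => sgn q.1 * if q.2 then x⁻¹ else x with hφ
  set Rq : Bool × Bool → Finset ℝ := fun q => R.filter fun x => 0 ≤ φ q x ∧ φ q x < 1 ∧ (q.2 = true → x ≠ 0)
    with hRq
  have s0 : ∀ e, sgn e ≠ 0 := fun e h => by simpa [h] using sgn_mul e
  have h1 : #R ≤ ∑ q, #((Rq q).image (φ q)) + 2 := by
    have hsub : R ⊆ univ.biUnion Rq ∪ {1, -1} := by
      intro x hx
      simp only [mem_union, mem_biUnion, mem_univ, true_and, hRq, mem_filter, hx, mem_insert, mem_singleton,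
        hφ, Prod.exists, Bool.exists_bool, sgn]
      simp only [Bool.false_eq_true, if_false, if_true, one_mul, neg_mul, false_imp_iff, and_true, true_imp_iff]
      rcases lt_trichotomy x 1 with h | h | h
      · rcases lt_trichotomy x (-1) with h' | h' | h'
        · refine Or.inl (Or.inr (Or.inr ⟨?_, ?_, by linarith⟩))
          · rw [← inv_neg]; exact inv_nonneg.2 (by linarith)
          · rw [← inv_neg]; exact inv_lt_one_of_one_lt₀ (by linarith)
        · exact Or.inr (Or.inr h')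
        · rcases le_total 0 x with h2 | h2
          · exact Or.inl (Or.inl (Or.inl ⟨h2, h⟩))
          · exact Or.inl (Or.inr (Or.inl ⟨by linarith, by linarith⟩))
      · exact Or.inr (Or.inl h)
      · exact Or.inl (Or.inl (Or.inr ⟨inv_nonneg.2 (by linarith), inv_lt_one_of_one_lt₀ h, by linarith⟩))
    refine (card_le_card hsub).trans ((card_union_le _ _).trans (add_le_add (card_biUnion_le.trans
      (le_of_eq (sum_congr rfl fun q _ => (card_image_of_injective _ ?_).symm))) card_le_two))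
    intro x y h
    have := mul_left_cancel₀ (s0 _) h
    split_ifs at this
    exacts [inv_injective this, this]
  have h2 : ∀ q, ∀ᶠ K : ℕ in atTop, #((Rq q).image (φ q)) ≤ #((range K).filter fun i : ℕ =>
      ff n q a ((i : ℝ) / K) * ff n q a (((i + 1 : ℕ) : ℝ) / K) ≤ 0) := by
    intro q
    refine count _ _ fun z hz => ?_
    obtain ⟨x, hx, rfl⟩ := mem_image.1 hz
    simp only [hRq, mem_filter, hR, Multiset.mem_toFinset] at hx
    obtain ⟨hx, b1, b2, b3⟩ := hx
    have hx0 : (PP n a).eval x = 0 := isRoot_of_mem_roots hx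
    have hx1 := ha x hx0
    refine ⟨b1, b2, ?_⟩
    obtain ⟨e, o⟩ := q
    cases o
    · have e1 : ff n (e, false) a = fun t => (PP n a).eval (sgn e * t) := by
        ext t; simp [ff, ww, PP_eval, mul_pow]
      have e2 : sgn e * φ (e, false) x = x := by simp [hφ, ← mul_assoc, sgn_mul]
      rw [e1]
      refine ⟨by simp only [e2, hx0], _, mul_ne_zero hx1 (s0 e), ?_⟩
      have := ((PP n a).hasDerivAt (sgn e * φ (e, false) x)).comp _
        ((hasDerivAt_id (φ (e, false) x)).const_mul (sgn e))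
      rw [e2, mul_one] at this
      exact this
    · have x0 := b3 rfl
      have z0 : φ (e, true) x ≠ 0 := by simp [hφ, x0, s0]
      have e1 : ∀ t, t ≠ 0 → ff n (e, true) a t = t ^ n * (PP n a).eval (sgn e * t⁻¹) := by
        intro t ht
        simp only [ff, ww, PP_eval, mul_pow, if_true, mul_sum]
        refine sum_congr rfl fun k hk => ?_
        rw [pow_sub₀ _ ht (Nat.lt_succ_iff.1 (mem_range.1 hk)), inv_pow]; ring
      have e2 : sgn e * (φ (e, true) x)⁻¹ = x := by
        simp only [hφ, if_true, mul_inv, inv_inv, ← mul_assoc, mul_inv_cancel₀ (s0 e), one_mul]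
      generalize φ (e, true) x = z at *
      refine ⟨by rw [e1 _ z0, e2, hx0, mul_zero], z ^ n * ((derivative (PP n a)).eval x * (sgn e * -(z ^ 2)⁻¹)),
        mul_ne_zero (pow_ne_zero _ z0) (mul_ne_zero hx1 (mul_ne_zero (s0 e) (neg_ne_zero.2 (by positivity)))), ?_⟩
      have h3 := (hasDerivAt_pow n z).mul (((PP n a).hasDerivAt (sgn e * z⁻¹)).comp z
        ((hasDerivAt_inv z0).const_mul (sgn e)))
      simp only [Function.comp, e2, hx0, mul_zero, zero_add] at h3
      refine h3.congr_of_eventuallyEq ?_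
      filter_upwards [isOpen_ne.mem_nhds z0] with t ht
      exact e1 t ht
  have h3 : ((∑ q, #((Rq q).image (φ q)) : ℕ) : ℝ≥0∞) ≤ XX n a := by
    refine le_liminf_of_le (by isBoundedDefault) ?_
    filter_upwards [eventually_all.2 h2] with K hK
    push_cast
    refine sum_le_sum fun q _ => ?_
    refine le_trans (Nat.cast_le.2 (hK q)) (le_of_eq ?_)
    rw [card_filter]
    push_cast
    exact sum_congr rfl fun i _ => by simp [Set.indicator, SE]
  rw [← Multiset.toFinset_card_of_nodup hnd]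
  calc ((#R : ℕ) : ℝ≥0∞) ≤ ((∑ q, #((Rq q).image (φ q)) + 2 : ℕ) : ℝ≥0∞) := Nat.cast_le.2 h1
    _ ≤ _ := by rw [Nat.cast_add]; exact add_le_add h3 (by simp)

lemma Bad_meas (n : ℕ) : MeasurableSet (Bad n) := by
  have e : Bad n = ⋃ R : ℕ, Prod.fst '' {p : (ℕ → ℝ) × Set.Icc (-(R : ℝ)) R |
      (PP n p.1).eval p.2.1 = 0 ∧ (derivative (PP n p.1)).eval p.2.1 = 0} := by
    ext a
    simp only [Bad, Set.mem_setOf_eq, Set.mem_iUnion, Set.mem_image]
    constructor
    · rintro ⟨x, h⟩
      obtain ⟨R, hR⟩ := exists_nat_ge |x|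
      exact ⟨R, (a, ⟨x, abs_le.1 hR⟩), h, rfl⟩
    · rintro ⟨R, p, h, rfl⟩
      exact ⟨_, h⟩
  rw [e]
  refine .iUnion fun R => (isClosedMap_fst_of_compactSpace _ (IsClosed.inter ?_ ?_)).measurableSet
  · refine isClosed_eq ?_ continuous_const
    simp only [PP_eval]; fun_prop
  · refine isClosed_eq ?_ continuous_const
    simp only [PP, derivative_sum, derivative_C_mul_X_pow, eval_finset_sum, eval_mul, eval_C, eval_pow, eval_X]
    fun_prop

lemma Bad_null (n : ℕ) : mu (Bad n) = 0 := by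
  have e0 : ∀ (z : ℝ) (a : ℕ → ℝ), TT (Pi.single 0 1) (z, a) = a + Pi.single 0 z := fun z a => by
    simp only [TT, ← Pi.single_smul, smul_eq_mul, mul_one]
  have e1 : ∀ (z : ℝ) (a : ℕ → ℝ), PP n (a + Pi.single 0 z) = PP n a + C z := fun z a => by
    simp only [PP, Pi.add_apply, C_add, add_mul, sum_add_distrib]
    congr 1
    rw [sum_range_succ']
    simp
  have hm := TT_meas (Pi.single 0 1) (Bad_meas n)
  have h1 : gs.prod mu (TT (Pi.single 0 1) ⁻¹' Bad n) = 0 := by
    rw [Measure.prod_apply_symm hm]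
    refine lintegral_eq_zero_of_ae_eq_zero (.of_forall fun a => ?_)
    haveI : NullSingletonClass gs := nullSingletonClass_gaussianReal one_ne_zero
    refine Set.Finite.measure_zero ?_ _
    by_cases h : derivative (PP n a) = 0
    · refine (Set.finite_singleton (-(PP n a).coeff 0)).subset ?_
      rintro z ⟨x, hx, -⟩
      rw [e0, e1, eq_C_of_derivative_eq_zero h] at hx
      simp only [eval_add, eval_C] at hx
      rw [Set.mem_singleton_iff]; linarith
    · refine (((derivative (PP n a)).roots.toFinset.finite_toSet).image fun x => -(PP n a).eval x).subset ?_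
      rintro z ⟨x, hx, hx2⟩
      rw [e0, e1] at hx hx2
      simp only [eval_add, eval_C, derivative_add, derivative_C, add_zero] at hx hx2
      exact ⟨x, by simp [h, hx2], by linarith⟩
  obtain ⟨z, hz⟩ := ((Measure.measure_prod_null hm).1 h1).exists
  refine null_of_shift z _ (Bad_meas n) ?_
  simpa only [Set.preimage_preimage, e0, Pi.zero_apply] using hz

def EE (n : ℕ) : Set (ℕ → ℝ) := {a | XX n a ≤ ENNReal.ofReal ((2 / Real.pi - 1 / 40000) * Real.log n)}

lemma EE_meas (n : ℕ) : MeasurableSet (EE n) := measurableSet_le (XX_meas n) measurable_const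

lemma exists_z (n r : ℕ) (hr : 16 ≤ r) (hn : 10 * (r ^ 2) ^ 3 ≤ n)
    (h : (2 * Real.log n - Real.log r / 2 + 272) / Real.pi ≤ (2 / Real.pi - 2 / 40000) * Real.log n) :
    ∃ z : ℝ, |z| ≤ 6 ∧ 1 / 160000 ≤ mu.real ((fun a => a + z • gam n (r ^ 2)) ⁻¹' EE n) := by
  have n1 : 1 < n := by
    have : 0 < (r ^ 2) ^ 3 := by positivity
    omega
  have L0 : 0 < Real.log n := Real.log_pos (by exact_mod_cast n1)
  have u1 : 2 / Real.pi ≤ 1 := by rw [div_le_one Real.pi_pos]; linarith [Real.pi_gt_three]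
  have u2 : 1 / 2 ≤ 2 / Real.pi := by rw [le_div_iff₀ Real.pi_pos]; linarith [Real.pi_le_four]
  have hm := TT_meas (gam n (r ^ 2)) (EE_meas n)
  have h1 := (mul_meas_ge_le_lintegral (μ := nu) ((XX_meas n).comp (TT_meas (gam n (r ^ 2))))
    (ENNReal.ofReal ((2 / Real.pi - 1 / 40000) * Real.log n))).trans
    ((tilt n r hr hn).trans (ENNReal.ofReal_le_ofReal h))
  have h2 : nu.real (TT (gam n (r ^ 2)) ⁻¹' EE n)ᶜ ≤ 1 - 1 / 40000 := by
    have h3 : nu (TT (gam n (r ^ 2)) ⁻¹' EE n)ᶜ ≤ nu {p | ENNReal.ofReal ((2 / Real.pi - 1 / 40000) * Real.log n)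
        ≤ (XX n ∘ TT (gam n (r ^ 2))) p} := measure_mono fun p hp => (not_le.1 (show ¬ XX n _ ≤ _ from hp)).le
    have h4 := (mul_le_mul_right h3 _).trans h1
    rw [← ofReal_measureReal (μ := nu), ← ENNReal.ofReal_mul (mul_nonneg (by linarith) L0.le),
      ENNReal.ofReal_le_ofReal_iff (mul_nonneg (by linarith) L0.le), mul_right_comm,
      mul_le_mul_iff_left₀ L0] at h4
    by_contra hn
    nlinarith
  rw [measureReal_compl hm, probReal_univ] at h2
  by_contra hn
  push Not at hn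
  have h5 : nu (TT (gam n (r ^ 2)) ⁻¹' EE n) ≤ ENNReal.ofReal (1 / 160000) + gs {z | 6 ≤ |z|} := by
    have hs : MeasurableSet {z : ℝ | 6 ≤ |z|} := measurableSet_le measurable_const (by fun_prop)
    rw [nu, Measure.prod_apply hm]
    calc _ ≤ ∫⁻ z, (ENNReal.ofReal (1 / 160000) + {z : ℝ | 6 ≤ |z|}.indicator 1 z) ∂gs := by
          refine lintegral_mono fun z => ?_
          by_cases hz : 6 ≤ |z|
          · rw [Set.indicator_of_mem (show z ∈ {z : ℝ | 6 ≤ |z|} from hz)]
            exact prob_le_one.trans le_add_self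
          · refine le_trans ?_ le_self_add
            rw [← ofReal_measureReal (μ := mu)]
            exact ENNReal.ofReal_le_ofReal (hn z (not_le.1 hz).le).le
      _ = _ := by rw [lintegral_add_left measurable_const, lintegral_indicator_one hs]; simp
  rw [← ofReal_measureReal (μ := gs), ← ENNReal.ofReal_add (by norm_num) measureReal_nonneg] at h5
  have h6 := ENNReal.toReal_le_of_le_ofReal (add_nonneg (by norm_num) measureReal_nonneg) h5
  have h7 := tail
  rw [← Measure.real] at h6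
  linarith

lemma blocks (r N I : ℕ) (W : ℝ) (hr : 16 ≤ r) (hN : 10 * (r ^ 2) ^ 3 ≤ N)
    (h : ∀ i, i < I → (2 * Real.log (N + (i + 1) * (2 * r ^ 2) : ℕ) - Real.log r / 2 + 272) / Real.pi
      ≤ (2 / Real.pi - 2 / 40000) * Real.log (N + (i + 1) * (2 * r ^ 2) : ℕ))
    (hW : Real.exp (576 * (1 + Real.log (r ^ 2 : ℕ))) ≤ W) (hI : 640000 ^ 2 * W < I) :
    1 / 320000 ≤ mu.real (⋃ n, ⋃ (_ : N ≤ n), EE n) := by
  by_contra hn
  push Not at hn
  have W0 : 0 < W := (Real.exp_pos _).trans_le hW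
  set f : ℕ → Set (ℕ → ℝ) := fun i => EE (N + (i + 1) * (2 * r ^ 2)) with hf
  have hD : ∀ i, MeasurableSet (disjointed f i) := MeasurableSet.disjointed fun i => EE_meas _
  have h1 : ∀ i ∈ range I, 1 / (640000 ^ 2 * W) ≤ mu.real (disjointed f i) := by
    intro i hi
    obtain ⟨z, hz, h2⟩ := exists_z _ r hr (hN.trans (Nat.le_add_right _ _)) (h i (mem_range.1 hi))
    set n := N + (i + 1) * (2 * r ^ 2) with hn'
    have hJ : 2 * r ^ 2 ≤ n := by rw [hn', add_mul, one_mul]; omega
    have h3 := cm_ineq (range (n + 1)) (z • gam n (r ^ 2)) (fun k hk => by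
      rw [Pi.smul_apply, gam_zero _ _ _ (Or.inl (by simpa using hk)), smul_zero]) _ (hD i) (640000 * W)
      (by positivity)
    have h4 : Real.exp (∑ k ∈ range (n + 1), (z • gam n (r ^ 2)) k ^ 2) ≤ W := by
      refine le_trans (Real.exp_le_exp.2 ?_) hW
      simp only [Pi.smul_apply, smul_eq_mul, mul_pow, ← mul_sum]
      have h5 : z ^ 2 ≤ 6 ^ 2 := sq_le_sq' (abs_le.1 hz).1 (abs_le.1 hz).2
      have h6 := mul_le_mul h5 (gam_sq n (r ^ 2) hJ) (sum_nonneg fun _ _ => sq_nonneg _) (by norm_num)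
      linarith
    have h5 : (fun a => a + z • gam n (r ^ 2)) ⁻¹' EE n ⊆
        (fun a => a + z • gam n (r ^ 2)) ⁻¹' disjointed f i ∪ ⋃ n, ⋃ (_ : N ≤ n), EE n := by
      intro a ha
      by_cases hb : ∃ j, j < i ∧ a ∈ f j
      · obtain ⟨j, -, hj⟩ := hb
        exact Or.inr (Set.mem_iUnion₂.2 ⟨_, Nat.le_add_right _ _, hj⟩)
      · push Not at hb
        refine Or.inl ?_
        rw [Set.mem_preimage, disjointed_eq_inter_compl]
        refine ⟨ha, Set.mem_iInter₂.2 fun j hj hc => hb j hj ?_⟩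
        simp only [hf, EE, Set.mem_setOf_eq] at hc ⊢
        rw [← XX_congr _ _ _ fun k hk => ?_]
        · exact hc
        · have : (j + 1 + 1) * (2 * r ^ 2) ≤ (i + 1) * (2 * r ^ 2) := Nat.mul_le_mul_right _ (by omega)
          rw [add_mul (j + 1), one_mul] at this
          simp [gam_zero n (r ^ 2) k (Or.inr (by omega))]
    have h6 := (measureReal_mono h5).trans (measureReal_union_le (μ := mu) _ _)
    have h7 : Real.exp (∑ k ∈ range (n + 1), (z • gam n (r ^ 2)) k ^ 2) / (640000 * W) ≤ 1 / 640000 := by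
      rw [div_le_iff₀ (by positivity)]; linarith
    rw [div_le_iff₀ (by positivity)]
    linarith
  have h2 := sum_measureReal_le_measureReal_univ (μ := mu) (s := range I) (t := disjointed f)
    (fun i _ => hD i) (fun i _ j _ hij => disjoint_disjointed f hij)
  have h3 := (sum_le_sum h1).trans h2
  rw [sum_const, card_range, nsmul_eq_mul, probReal_univ, mul_one_div, div_le_one (by positivity)] at h3
  linarith

lemma often (N0 : ℕ) : 1 / 320000 ≤ mu.real (⋃ n, ⋃ (_ : N0 ≤ n), EE n) := by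
  have h1 : ∀ᶠ r : ℕ in atTop, 3000 ≤ Real.log r :=
    (Real.tendsto_log_atTop.comp tendsto_natCast_atTop_atTop).eventually_ge_atTop 3000
  obtain ⟨r, ⟨hl, hN⟩, hr⟩ := ((h1.and (eventually_ge_atTop N0)).and (eventually_gt_atTop (640000 ^ 2))).exists
  obtain ⟨m, hm⟩ : ∃ m : ℕ, m = 1728 := ⟨_, rfl⟩
  have r1 : 1 ≤ r := by omega
  have rR : (0 : ℝ) < r := by exact_mod_cast r1
  have mR : (m : ℝ) = 1728 := by exact_mod_cast hm
  refine (blocks r (r ^ (m + 272)) (r ^ (m + 269)) ((r : ℝ) ^ m) (by omega) ?_ (fun i hi => ?_) ?_ ?_).trans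
    (measureReal_mono (Set.iUnion₂_subset fun n hn => Set.subset_iUnion₂_of_subset n
      (hN.trans ((Nat.le_self_pow (by omega) r).trans hn)) le_rfl) (measure_ne_top _ _))
  · calc 10 * (r ^ 2) ^ 3 ≤ r * (r ^ 2) ^ 3 := Nat.mul_le_mul_right _ (by omega)
      _ = r ^ 7 := by ring
      _ ≤ _ := Nat.pow_le_pow_right r1 (by omega)
  · have h2 : (i + 1) * (2 * r ^ 2) ≤ r ^ (m + 272) := by
      calc (i + 1) * (2 * r ^ 2) ≤ r ^ (m + 269) * (r * r ^ 2) :=
            Nat.mul_le_mul hi (Nat.mul_le_mul_right _ (by omega))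
        _ = _ := by rw [← pow_succ', ← pow_add]
    have h3 : r ^ (m + 272) + (i + 1) * (2 * r ^ 2) ≤ r ^ (m + 273) := by
      rw [pow_succ r (m + 272)]
      have := Nat.mul_le_mul_left (r ^ (m + 272)) (show 2 ≤ r by omega)
      omega
    have h4 : 0 < r ^ (m + 272) + (i + 1) * (2 * r ^ 2) := by positivity
    generalize r ^ (m + 272) + (i + 1) * (2 * r ^ 2) = n at *
    have h5 : Real.log n ≤ 2001 * Real.log r := by
      have h6 : (n : ℝ) ≤ (r : ℝ) ^ (m + 273) := by exact_mod_cast h3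
      have h7 := Real.log_le_log (by exact_mod_cast h4) h6
      rw [Real.log_pow] at h7
      push_cast at h7
      rw [mR] at h7
      linarith
    rw [div_le_iff₀ Real.pi_pos]
    have e : (2 / Real.pi - 2 / 40000) * Real.log n * Real.pi
        = 2 * Real.log n - Real.log n * Real.pi / 20000 := by field_simp; ring
    have h8 := mul_le_mul h5 Real.pi_le_four Real.pi_pos.le (by linarith)
    rw [e]; linarith
  · rw [← Real.exp_log (pow_pos rR m), Real.log_pow, Real.exp_le_exp, mR]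
    push_cast
    rw [Real.log_pow]
    push_cast
    linarith
  · have h2 : 640000 ^ 2 * r ^ m < r ^ (m + 269) := by
      calc 640000 ^ 2 * r ^ m < r * r ^ m := Nat.mul_lt_mul_of_pos_right hr (by positivity)
        _ = r ^ (m + 1) := (pow_succ' _ _).symm
        _ ≤ _ := Nat.pow_le_pow_right r1 (by omega)
    exact_mod_cast h2

theorem not_ae : ¬ ∀ᵐ a ∂mu, Tendsto (fun n : ℕ => ((PP n a).roots.card : ℝ) / Real.log n) atTop
    (𝓝 (2 / Real.pi)) := by
  intro h
  have h1 : ∀ᵐ a ∂mu, ∀ n, a ∉ Bad n := ae_all_iff.2 fun n => measure_eq_zero_iff_ae_notMem.1 (Bad_null n)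
  have h2 : mu (⋂ N, ⋃ n, ⋃ (_ : N ≤ n), EE n) = 0 := by
    rw [measure_eq_zero_iff_ae_notMem]
    filter_upwards [h, h1] with a ha hb hc
    have h3 := ha.eventually_const_lt (show 2 / Real.pi - 1 / 80000 < 2 / Real.pi by linarith)
    have h4 : ∀ᶠ n : ℕ in atTop, 160000 ≤ Real.log n :=
      (Real.tendsto_log_atTop.comp tendsto_natCast_atTop_atTop).eventually_ge_atTop _
    obtain ⟨N, hN⟩ := eventually_atTop.1 (h3.and h4)
    obtain ⟨n, hn, he⟩ := Set.mem_iUnion₂.1 (Set.mem_iInter.1 hc N)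
    obtain ⟨a1, a2⟩ := hN n hn
    have u2 : 1 / 2 ≤ 2 / Real.pi := by rw [le_div_iff₀ Real.pi_pos]; linarith [Real.pi_le_four]
    have h5 := (roots_le n a (hb n)).trans (add_le_add (show XX n a ≤ _ from he) le_rfl)
    have h6 : 0 ≤ (2 / Real.pi - 1 / 40000) * Real.log n := mul_nonneg (by linarith) (by linarith)
    rw [← ENNReal.ofReal_natCast, ← ENNReal.ofReal_ofNat 2, ← ENNReal.ofReal_add h6 (by norm_num),
      ENNReal.ofReal_le_ofReal_iff (by linarith)] at h5
    rw [lt_div_iff₀ (by linarith)] at a1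
    linarith
  rw [Antitone.measure_iInter (s := fun N => ⋃ n, ⋃ (_ : N ≤ n), EE n) (fun N M hNM => Set.iUnion₂_subset fun n hn =>
      Set.subset_iUnion₂_of_subset n (hNM.trans hn) le_rfl)
    (fun N => (MeasurableSet.iUnion fun n => .iUnion fun _ => EE_meas n).nullMeasurableSet)
    ⟨0, measure_ne_top _ _⟩] at h2
  have h3 : ENNReal.ofReal (1 / 320000) ≤ ⨅ N, mu (⋃ n, ⋃ (_ : N ≤ n), EE n) :=
    le_iInf fun N => by
      rw [← ofReal_measureReal (μ := mu) (measure_ne_top _ _)]; exact ENNReal.ofReal_le_ofReal (often N)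
  rw [h2] at h3
  exact absurd h3 (not_le.2 (ENNReal.ofReal_pos.2 (by norm_num)))

end Pool.Agent.H.Kac
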